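import Pool.Agent.H370R2.Local
import Pool.Agent.H370R2.Rect

/-!
# Functions like `L(1 + s)` to the right of the centre: zeros and the logarithmic derivative
-/

set_option autoImplicit false

open Complex Filter Topology Set Metric

namespace Pool.Agent.N739.LW

open H370 (mult)

noncomputable section

/-- `G(s) = L(1 + s)`; the Dirichlet series with the coefficients `a` is `G'/G + g`, `g` holomorphic and
bounded to the right of the centre -/
structure LG (G g : ℂ → ℂ) (a : ℕ → ℂ) : Prop where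
  diff : Differentiable ℂ G
  gro : ∀ η : ℝ, 0 < η → ∃ (A : ℝ) (K : ℕ), 0 < A ∧ ∀ z : ℂ, η ≤ z.re → ‖G z‖ ≤ A * (1 + ‖z‖) ^ K
  low : ∃ c : ℝ, 0 < c ∧ ∀ z : ℂ, 2 ≤ z.re → c ≤ ‖G z‖
  ne : ∀ z : ℂ, 1 ≤ z.re → G z ≠ 0
  gd : ∀ z : ℂ, 0 < z.re → DifferentiableAt ℂ g z
  gb : ∀ η : ℝ, 0 < η → ∃ B : ℝ, ∀ z : ℂ, η ≤ z.re → ‖g z‖ ≤ B
  sum : Summable fun n : ℕ => ‖a n‖ * (n : ℝ) ^ (-(3 / 2) : ℝ)
  a0 : a 0 = 0
  ser : ∀ s : ℂ, 3 / 2 ≤ s.re → LSeries a s = deriv G s / G s + g s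

variable {G g : ℂ → ℂ} {a : ℕ → ℂ}

theorem LG.not_ev (h : LG G g a) (z₀ : ℂ) : ¬ ∀ᶠ z in 𝓝 z₀, G z = 0 := by
  intro h0
  have han : AnalyticOnNhd ℂ G univ := fun z _ => h.diff.analyticAt z
  exact h.ne 1 (by simp) (han.eqOn_zero_of_preconnected_of_eventuallyEq_zero isPreconnected_univ (mem_univ z₀) h0
    (mem_univ 1))

theorem LG.isol (h : LG G g a) (ρ₀ : ℂ) : ∃ d : ℝ, 0 < d ∧ ∀ ρ : ℂ, G ρ = 0 → ρ ≠ ρ₀ → d ≤ ‖ρ₀ - ρ‖ := by
  rcases (h.diff.analyticAt ρ₀).eventually_eq_zero_or_eventually_ne_zero with h1 | h1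
  · exact absurd h1 (h.not_ev ρ₀)
  · rw [eventually_nhdsWithin_iff, Metric.eventually_nhds_iff] at h1
    obtain ⟨ε, hε, h1⟩ := h1
    refine ⟨ε, hε, fun ρ h0 hne => ?_⟩
    by_contra hcon
    push Not at hcon
    refine h1 (y := ρ) ?_ hne h0
    rw [dist_eq_norm, norm_sub_rev]
    exact hcon

theorem LG.mult_ge (h : LG G g a) {ρ₀ : ℂ} (h0 : G ρ₀ = 0) : 1 ≤ mult G ρ₀ := by
  have han := h.diff.analyticAt ρ₀
  have h1 : analyticOrderAt G ρ₀ ≠ 0 := by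
    rw [Ne, analyticOrderAt_eq_zero]
    push Not
    exact ⟨han, h0⟩
  have h2 : analyticOrderAt G ρ₀ ≠ ⊤ := by
    rw [Ne, analyticOrderAt_eq_top]
    exact h.not_ev ρ₀
  unfold mult analyticOrderNatAt
  rw [Nat.one_le_iff_ne_zero, Ne, ENat.toNat_eq_zero]
  push Not
  exact ⟨h1, h2⟩

theorem LG.re_lt (h : LG G g a) {z : ℂ} (h0 : G z = 0) : z.re < 1 := by
  by_contra hcon
  exact h.ne z (not_lt.1 hcon) h0

/-- a crude bound for the number of zeros -/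
theorem LG.card_le (h : LG G g a) {η : ℝ} (hη : 0 < η) (hη1 : η ≤ 1) : ∃ C : ℝ, 1 ≤ C ∧ ∀ T : ℝ, 3 ≤ T →
    ∀ S : Finset ℂ, (∀ z ∈ S, G z = 0 ∧ η ≤ z.re ∧ |z.im| ≤ T) → (S.card : ℝ) ≤ C * T ^ 4 := by
  obtain ⟨A, K, hA, hg⟩ := h.gro (η / 2) (by linarith)
  obtain ⟨c0, hc0, hl⟩ := h.low
  set D : ℝ := |Real.log (1 + A)| + 2 * K + |Real.log c0| with hD
  have hD0 : 0 ≤ D := by positivity
  refine ⟨64 * D / η ^ 3 + 1, by
    have : 0 ≤ 64 * D / η ^ 3 := by positivity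
    linarith, fun T hT S hS => ?_⟩
  set X0 : ℝ := 4 * T ^ 2 / η with hX0
  have hX36 : 36 ≤ X0 := by
    rw [hX0, le_div_iff₀ hη]
    nlinarith
  have hXT : T ^ 2 = η / 4 * X0 := by rw [hX0]; field_simp
  have hcre : 2 ≤ ((X0 : ℝ) : ℂ).re := by rw [Complex.ofReal_re]; linarith
  have hGc : c0 ≤ ‖G (X0 : ℂ)‖ := hl _ hcre
  have hGc0 : 0 < ‖G (X0 : ℂ)‖ := hc0.trans_le hGc
  set M : ℝ := (1 + A) * (1 + 2 * X0) ^ K with hM
  have hp1 : (1 : ℝ) ≤ (1 + 2 * X0) ^ K := one_le_pow₀ (by linarith)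
  have hM1 : 1 ≤ M := by
    rw [hM]
    nlinarith
  have hb : ∀ z ∈ closedBall (X0 : ℂ) (X0 - η / 2), ‖G z‖ ≤ M := by
    intro z hz
    rw [mem_closedBall, dist_eq_norm] at hz
    have h1 := (Complex.abs_re_le_norm (z - X0)).trans hz
    rw [Complex.sub_re, Complex.ofReal_re, abs_le] at h1
    have h2 : ‖z‖ ≤ 2 * X0 := by
      calc ‖z‖ = ‖(z - X0) + X0‖ := by rw [sub_add_cancel]
        _ ≤ ‖z - X0‖ + ‖(X0 : ℂ)‖ := norm_add_le _ _
        _ ≤ (X0 - η / 2) + X0 := by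
            rw [Complex.norm_real, Real.norm_of_nonneg (by linarith : 0 ≤ X0)]
            linarith
        _ ≤ _ := by linarith
    refine (hg z (by linarith [h1.1])).trans ?_
    rw [hM]
    have h3 : (1 + ‖z‖) ^ K ≤ (1 + 2 * X0) ^ K := pow_le_pow_left₀ (by positivity) (by linarith) K
    have h4 : 0 ≤ (1 + ‖z‖) ^ K := by positivity
    nlinarith
  have hin : ∀ z ∈ S, z ∈ closedBall (X0 : ℂ) (X0 - 3 * η / 4) := by
    intro z hz
    obtain ⟨k1, k2, k3⟩ := hS z hz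
    have k4 := h.re_lt k1
    rw [mem_closedBall, dist_eq_norm]
    apply abs_le_of_sq_le_sq' _ (by linarith) |>.2
    rw [← Complex.normSq_eq_norm_sq, Complex.normSq_apply, Complex.sub_re, Complex.sub_im, Complex.ofReal_re,
      Complex.ofReal_im, sub_zero]
    have k5 : z.im * z.im ≤ T ^ 2 := by
      have := sq_le_sq' (by linarith [(abs_le.1 k3).1] : -T ≤ z.im) (abs_le.1 k3).2
      nlinarith
    have k6 : (z.re - X0) * (z.re - X0) ≤ (X0 - η) ^ 2 := by nlinarith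
    nlinarith
  have hj := H370.Loc.jensen_mult (f := G) (c := (X0 : ℂ)) (r := X0 - 3 * η / 4) (R := X0 - η / 2) (M := M)
    (by linarith) (by linarith) hM1 (fun z _ => h.diff.analyticAt z) (norm_pos_iff.1 hGc0) hb S hin
  have hcard : (S.card : ℝ) ≤ ∑ z ∈ S, (mult G z : ℝ) := by
    rw [Finset.cast_card]
    apply Finset.sum_le_sum
    intro z hz
    exact_mod_cast h.mult_ge (hS z hz).1
  have hlog1 : Real.log (M / ‖G (X0 : ℂ)‖) ≤ D * X0 := by
    have h1 : Real.log (M / ‖G (X0 : ℂ)‖) ≤ Real.log (M / c0) :=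
      Real.log_le_log (by positivity) (div_le_div_of_nonneg_left (by linarith) hc0 hGc)
    refine h1.trans ?_
    rw [Real.log_div (by linarith) hc0.ne', hM, Real.log_mul (by linarith) (by positivity), Real.log_pow]
    have h2 : Real.log (1 + 2 * X0) ≤ 2 * X0 := by
      have := Real.log_le_sub_one_of_pos (show 0 < 1 + 2 * X0 by linarith)
      linarith
    have h3 := le_abs_self (Real.log (1 + A))
    have h4 := neg_abs_le (Real.log c0)
    have h5 : (K : ℝ) * Real.log (1 + 2 * X0) ≤ K * (2 * X0) := mul_le_mul_of_nonneg_left h2 (Nat.cast_nonneg K)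
    have h6 : |Real.log (1 + A)| ≤ |Real.log (1 + A)| * X0 := le_mul_of_one_le_right (abs_nonneg _) (by linarith)
    have h7 : |Real.log c0| ≤ |Real.log c0| * X0 := le_mul_of_one_le_right (abs_nonneg _) (by linarith)
    rw [hD]
    nlinarith
  have hlog2 : η / (4 * X0) ≤ Real.log ((X0 - η / 2) / (X0 - 3 * η / 4)) := by
    have hr0 : 0 < X0 - 3 * η / 4 := by linarith
    have hR0 : 0 < X0 - η / 2 := by linarith
    have h1 := Real.one_sub_inv_le_log_of_pos (show 0 < (X0 - η / 2) / (X0 - 3 * η / 4) by positivity)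
    refine le_trans ?_ h1
    rw [inv_div, div_le_iff₀ (by linarith), sub_mul]
    have : (X0 - 3 * η / 4) / (X0 - η / 2) ≤ 1 - (η / 4) / X0 := by
      rw [div_le_iff₀ hR0]
      have h3 : η / 4 / X0 * (X0 - η / 2) ≤ η / 4 := by
        rw [div_mul_eq_mul_div, div_le_iff₀ (by linarith)]
        nlinarith
      nlinarith
    have h4 : (X0 - 3 * η / 4) / (X0 - η / 2) * (4 * X0) ≤ (1 - (η / 4) / X0) * (4 * X0) :=
      mul_le_mul_of_nonneg_right this (by linarith)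
    have h5 : (1 - (η / 4) / X0) * (4 * X0) = 4 * X0 - η := by
      field_simp
    linarith
  have hq0 : 0 < η / (4 * X0) := by positivity
  calc (S.card : ℝ) ≤ Real.log (M / ‖G (X0 : ℂ)‖) / Real.log ((X0 - η / 2) / (X0 - 3 * η / 4)) := hcard.trans hj
    _ ≤ (D * X0) / (η / (4 * X0)) := by
        apply div_le_div₀ (by positivity) hlog1 hq0 hlog2
    _ = 64 * D / η ^ 3 * T ^ 4 := by
        rw [hX0]
        field_simp
        ring
    _ ≤ (64 * D / η ^ 3 + 1) * T ^ 4 := by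
        apply mul_le_mul_of_nonneg_right (by linarith) (by positivity)

/-- the zeros in a bounded region -/
theorem LG.fin (h : LG G g a) {η : ℝ} (hη : 0 < η) (T : ℝ) :
    {z : ℂ | G z = 0 ∧ η ≤ z.re ∧ |z.im| ≤ T}.Finite := by
  have hη' : 0 < min η 1 := lt_min hη one_pos
  obtain ⟨C, hC, hcard⟩ := h.card_le hη' (min_le_right _ _)
  by_contra hinf
  obtain ⟨n, hn⟩ := exists_nat_gt (C * (max T 3) ^ 4)
  obtain ⟨S, hS, hSn⟩ := Set.Infinite.exists_subset_card_eq hinf n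
  have := hcard (max T 3) (le_max_right _ _) S (fun z hz => by
    obtain ⟨k1, k2, k3⟩ := hS hz
    exact ⟨k1, (min_le_left _ _).trans k2, k3.trans (le_max_left _ _)⟩)
  rw [hSn] at this
  linarith

/-- the logarithmic derivative in terms of the distance to the zeros -/
theorem LG.ld_bound (h : LG G g a) {η : ℝ} (hη : 0 < η) (hη1 : η ≤ 1) : ∃ D : ℝ, 1 ≤ D ∧ ∀ T1 : ℝ, 3 ≤ T1 →
    ∀ x t δ : ℝ, η ≤ x → x ≤ 2 → |t| ≤ T1 + 1 → 0 < δ → δ ≤ 1 →
    (∀ ρ : ℂ, G ρ = 0 → η / 2 ≤ ρ.re → |ρ.im| ≤ T1 + 4 → δ ≤ ‖(⟨x, t⟩ : ℂ) - ρ‖) →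
    G ⟨x, t⟩ ≠ 0 ∧ ‖deriv G ⟨x, t⟩ / G ⟨x, t⟩‖ ≤ D * T1 / δ := by
  obtain ⟨A, K, hA, hg⟩ := h.gro (η / 4) (by linarith)
  obtain ⟨c0, hc0, hl⟩ := h.low
  set D0 : ℝ := |Real.log (1 + A)| + 5 * K + |Real.log c0| with hD0d
  have hD0 : 0 ≤ D0 := by positivity
  set q : ℝ := Real.log ((2 - η / 4) / (2 - η / 2)) with hq
  have hq0 : 0 < q := by
    apply Real.log_pos
    rw [one_lt_div (by linarith)]
    linarith
  set l : ℝ := Real.log ((2 - η / 2) / ((2 - η / 4) - (2 - η / 2))) with hld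
  have hl0 : 0 ≤ l := by
    apply Real.log_nonneg
    rw [le_div_iff₀ (by linarith)]
    linarith
  have hD1 : 0 ≤ D0 / q + 2 * (D0 + D0 / q * l + 1) * 2 * 16 / η ^ 2 := by positivity
  refine ⟨D0 / q + 2 * (D0 + D0 / q * l + 1) * 2 * 16 / η ^ 2 + 1, by linarith,
    fun T1 hT1 x t δ hx1 hx2 ht hδ hδ1 hdist => ?_⟩
  have hc2 : (2 : ℝ) ≤ (⟨2, t⟩ : ℂ).re := le_rfl
  have hGc : c0 ≤ ‖G ⟨2, t⟩‖ := hl _ hc2
  have hGc0 : 0 < ‖G ⟨2, t⟩‖ := hc0.trans_le hGc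
  set M : ℝ := (1 + A) * (3 * T1) ^ K with hM
  have hp1 : (1 : ℝ) ≤ (3 * T1) ^ K := one_le_pow₀ (by linarith)
  have hM1 : 1 ≤ M := by
    rw [hM]
    nlinarith
  have hb : ∀ z ∈ closedBall (⟨2, t⟩ : ℂ) (2 - η / 4), ‖G z‖ ≤ M := by
    intro z hz
    rw [mem_closedBall, dist_eq_norm] at hz
    have h1 := (Complex.abs_re_le_norm (z - ⟨2, t⟩)).trans hz
    rw [Complex.sub_re, abs_le] at h1
    simp only at h1
    have h2 : ‖z‖ ≤ T1 + 5 := by
      calc ‖z‖ = ‖(z - ⟨2, t⟩) + ⟨2, t⟩‖ := by rw [sub_add_cancel]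
        _ ≤ ‖z - ⟨2, t⟩‖ + ‖(⟨2, t⟩ : ℂ)‖ := norm_add_le _ _
        _ ≤ (2 - η / 4) + (|(2 : ℝ)| + |t|) := by
            refine add_le_add hz (Complex.norm_le_abs_re_add_abs_im _)
        _ ≤ _ := by
            rw [abs_of_pos (by norm_num : (0 : ℝ) < 2)]
            linarith
    refine (hg z (by linarith [h1.1])).trans ?_
    rw [hM]
    have h3 : (1 + ‖z‖) ^ K ≤ (3 * T1) ^ K := pow_le_pow_left₀ (by positivity) (by linarith) K
    have h4 : 0 ≤ (1 + ‖z‖) ^ K := by positivity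
    nlinarith
  set L : ℝ := Real.log (M / ‖G ⟨2, t⟩‖) with hL
  have hLle : L ≤ D0 * T1 := by
    have h1 : L ≤ Real.log (M / c0) :=
      Real.log_le_log (by positivity) (div_le_div_of_nonneg_left (by linarith) hc0 hGc)
    refine h1.trans ?_
    rw [Real.log_div (by linarith) hc0.ne', hM, Real.log_mul (by linarith) (by positivity), Real.log_pow]
    have h2 : Real.log (3 * T1) ≤ 3 * T1 := by
      have := Real.log_le_sub_one_of_pos (show 0 < 3 * T1 by linarith)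
      linarith
    have h3 := le_abs_self (Real.log (1 + A))
    have h4 := neg_abs_le (Real.log c0)
    have h5 : (K : ℝ) * Real.log (3 * T1) ≤ K * (3 * T1) := mul_le_mul_of_nonneg_left h2 (Nat.cast_nonneg K)
    have h6 : |Real.log (1 + A)| ≤ |Real.log (1 + A)| * T1 := le_mul_of_one_le_right (abs_nonneg _) (by linarith)
    have h7 : |Real.log c0| ≤ |Real.log c0| * T1 := le_mul_of_one_le_right (abs_nonneg _) (by linarith)
    have h8 : (0 : ℝ) ≤ K * T1 := by positivity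
    rw [hD0d]
    nlinarith
  have hland := H370.Loc.landau (f := G) (c := ⟨2, t⟩) (r := 2 - η / 2) (r1 := 2 - 3 * η / 4) (r2 := 2 - η)
    (R := 2 - η / 4) (M := M) (by linarith) (by linarith) (by linarith) (by linarith) (by linarith) hM1
    (hb _ (mem_closedBall_self (by linarith))) (fun z _ => h.diff.analyticAt z) (norm_pos_iff.1 hGc0) hb ⟨x, t⟩ (by
      rw [mem_closedBall, dist_eq_norm]
      have e : ((⟨x, t⟩ : ℂ) - ⟨2, t⟩) = ((x - 2 : ℝ) : ℂ) := by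
        apply Complex.ext <;> simp
      rw [e, Complex.norm_real, Real.norm_eq_abs, abs_le]
      constructor <;> linarith) δ hδ (by
      intro ρ hρ hGρ
      rw [mem_closedBall, dist_eq_norm] at hρ
      have h2 := (Complex.abs_re_le_norm (ρ - ⟨2, t⟩)).trans hρ
      have h3 := (Complex.abs_im_le_norm (ρ - ⟨2, t⟩)).trans hρ
      simp only [sub_re, sub_im] at h2 h3
      rw [abs_le] at h2
      refine hdist ρ hGρ (by linarith [h2.1]) ?_
      have h4 : |ρ.im| ≤ |ρ.im - t| + |t| := by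
        have := abs_add_le (ρ.im - t) t
        rwa [sub_add_cancel] at this
      linarith)
  refine ⟨hland.1, hland.2.trans ?_⟩
  rw [← hL, ← hq, ← hld]
  have e1 : 2 - η / 2 - (2 - 3 * η / 4) = η / 4 := by ring
  have e2 : 2 - 3 * η / 4 - (2 - η) = η / 4 := by ring
  rw [e1, e2]
  have hT0 : (0 : ℝ) < T1 := by linarith
  have hδT : T1 ≤ T1 / δ := by
    rw [le_div_iff₀ hδ]
    nlinarith
  have f1 : L / q / δ ≤ D0 / q * (T1 / δ) := by
    calc L / q / δ ≤ (D0 * T1) / q / δ := by gcongr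
      _ = _ := by ring
  have f2 : 2 * (L + L / q * l + 1) * (2 - 3 * η / 4) / (η / 4) / (η / 4) ≤
      2 * (D0 + D0 / q * l + 1) * 2 * 16 / η ^ 2 * (T1 / δ) := by
    have g1 : L + L / q * l + 1 ≤ (D0 + D0 / q * l + 1) * T1 := by
      have k1 : L / q * l ≤ D0 / q * l * T1 := by
        calc L / q * l ≤ (D0 * T1) / q * l := by gcongr
          _ = _ := by ring
      nlinarith
    have g2 : 0 ≤ D0 + D0 / q * l + 1 := by positivity
    calc 2 * (L + L / q * l + 1) * (2 - 3 * η / 4) / (η / 4) / (η / 4)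
        ≤ 2 * ((D0 + D0 / q * l + 1) * T1) * 2 / (η / 4) / (η / 4) := by
          have k2 : 2 - 3 * η / 4 ≤ 2 := by linarith
          have k3 : 0 ≤ 2 - 3 * η / 4 := by linarith
          have k4 : 2 * (L + L / q * l + 1) * (2 - 3 * η / 4) ≤ 2 * ((D0 + D0 / q * l + 1) * T1) * 2 :=
            mul_le_mul (by linarith) k2 k3 (by positivity)
          gcongr
      _ = 2 * (D0 + D0 / q * l + 1) * 2 * 16 / η ^ 2 * T1 := by field_simp; ring
      _ ≤ _ := by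
          apply mul_le_mul_of_nonneg_left hδT
          positivity
  calc L / q / δ + 2 * (L + L / q * l + 1) * (2 - 3 * η / 4) / (η / 4) / (η / 4)
      ≤ D0 / q * (T1 / δ) + 2 * (D0 + D0 / q * l + 1) * 2 * 16 / η ^ 2 * (T1 / δ) := add_le_add f1 f2
    _ = (D0 / q + 2 * (D0 + D0 / q * l + 1) * 2 * 16 / η ^ 2) * T1 / δ := by ring
    _ ≤ _ := by
        apply div_le_div_of_nonneg_right _ hδ.le
        apply mul_le_mul_of_nonneg_right _ hT0.le
        linarith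

/-- good edges of a rectangle -/
theorem LG.edges (h : LG G g a) {η : ℝ} (hη : 0 < η) (hη1 : η ≤ 1 / 2) : ∃ C : ℝ, 1 ≤ C ∧ ∀ T1 : ℝ, 3 ≤ T1 →
    ∃ T ∈ Icc T1 (T1 + 1), ∃ σ ∈ Icc η (2 * η),
    (∀ x ∈ Icc η 2, (G ⟨x, T⟩ ≠ 0 ∧ ‖deriv G ⟨x, T⟩ / G ⟨x, T⟩‖ ≤ C * T1 ^ 5) ∧
      (G ⟨x, -T⟩ ≠ 0 ∧ ‖deriv G ⟨x, -T⟩ / G ⟨x, -T⟩‖ ≤ C * T1 ^ 5)) ∧
    (∀ y ∈ Icc (-T) T, G ⟨σ, y⟩ ≠ 0 ∧ ‖deriv G ⟨σ, y⟩ / G ⟨σ, y⟩‖ ≤ C * T1 ^ 5) := by
  classical
  obtain ⟨C1, hC1, hcard⟩ := h.card_le (η := η / 2) (by linarith) (by linarith)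
  obtain ⟨D, hD, hbd⟩ := h.ld_bound (η := η) hη (by linarith)
  refine ⟨D * (2 * (C1 * 81 + 1) / η), ?_, fun T1 hT1 => ?_⟩
  · have h1 : 1 ≤ 2 * (C1 * 81 + 1) / η := by
      rw [le_div_iff₀ hη]
      linarith
    exact one_le_mul_of_one_le_of_one_le hD h1
  have hfin := h.fin (η := η / 2) (by linarith) (T1 + 4)
  set n : ℕ := hfin.toFinset.card with hn
  have hn1 : (n : ℝ) ≤ C1 * 81 * T1 ^ 4 := by
    have h1 := hcard (T1 + 4) (by linarith) hfin.toFinset (fun z hz => by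
      rw [Set.Finite.mem_toFinset] at hz
      exact hz)
    refine h1.trans ?_
    have h2 : (T1 + 4) ^ 4 ≤ (3 * T1) ^ 4 := pow_le_pow_left₀ (by linarith) (by linarith) 4
    calc C1 * (T1 + 4) ^ 4 ≤ C1 * (3 * T1) ^ 4 := by gcongr
      _ = _ := by ring
  obtain ⟨T, hT, hTd⟩ := H370.Loc.pigeon (hfin.toFinset.image fun z => |z.im|) T1
  obtain ⟨u, hu, hud⟩ := H370.Loc.pigeon (hfin.toFinset.image fun z => z.re / η) 1
  set δ : ℝ := η / (2 * ((n : ℝ) + 1)) with hδ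
  have hn0 : (0 : ℝ) ≤ n := Nat.cast_nonneg n
  have hδ0 : 0 < δ := by positivity
  have hδ1 : δ ≤ 1 := by
    rw [hδ, div_le_one (by positivity)]
    linarith
  have hD' : D * T1 / δ ≤ D * (2 * (C1 * 81 + 1) / η) * T1 ^ 5 := by
    have h1 : (n : ℝ) + 1 ≤ (C1 * 81 + 1) * T1 ^ 4 := by
      have : (1 : ℝ) ≤ T1 ^ 4 := one_le_pow₀ (by linarith)
      linarith
    have hT10 : (0 : ℝ) < T1 := by linarith
    calc D * T1 / δ = D * T1 * (2 * ((n : ℝ) + 1)) / η := by rw [hδ]; field_simp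
      _ ≤ D * T1 * (2 * ((C1 * 81 + 1) * T1 ^ 4)) / η := by gcongr
      _ = _ := by ring
  have hdT : ∀ ρ : ℂ, G ρ = 0 → η / 2 ≤ ρ.re → |ρ.im| ≤ T1 + 4 → δ ≤ abs (T - |ρ.im|) := by
    intro ρ k1 k2 k3
    have hmem : |ρ.im| ∈ hfin.toFinset.image fun z => |z.im| := by
      rw [Finset.mem_image]
      exact ⟨ρ, by rw [Set.Finite.mem_toFinset]; exact ⟨k1, k2, k3⟩, rfl⟩
    refine le_trans ?_ (hTd _ hmem)
    have hc : ((hfin.toFinset.image fun z => |z.im|).card : ℝ) ≤ n := by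
      exact_mod_cast Finset.card_image_le
    have hc0 : (0 : ℝ) ≤ (hfin.toFinset.image fun z => |z.im|).card := Nat.cast_nonneg _
    rw [hδ]
    apply div_le_div₀ (by norm_num) (by linarith) (by positivity) (by linarith)
  have hdσ : ∀ ρ : ℂ, G ρ = 0 → η / 2 ≤ ρ.re → |ρ.im| ≤ T1 + 4 → δ ≤ |u * η - ρ.re| := by
    intro ρ k1 k2 k3
    have hmem : ρ.re / η ∈ hfin.toFinset.image fun z => z.re / η := by
      rw [Finset.mem_image]
      exact ⟨ρ, by rw [Set.Finite.mem_toFinset]; exact ⟨k1, k2, k3⟩, rfl⟩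
    have h1 := hud _ hmem
    have hc : ((hfin.toFinset.image fun z => z.re / η).card : ℝ) ≤ n := by
      exact_mod_cast Finset.card_image_le
    have hc0 : (0 : ℝ) ≤ (hfin.toFinset.image fun z => z.re / η).card := Nat.cast_nonneg _
    have e : |u * η - ρ.re| = η * |u - ρ.re / η| := by
      rw [← abs_of_pos hη, ← abs_mul, abs_of_pos hη]
      congr 1
      field_simp
    rw [e, hδ]
    have h2 : 1 / (2 * ((n : ℝ) + 1)) ≤ |u - ρ.re / η| := by
      refine le_trans ?_ h1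
      apply div_le_div_of_nonneg_left (by norm_num) (by positivity) (by linarith)
    calc η / (2 * ((n : ℝ) + 1)) = η * (1 / (2 * ((n : ℝ) + 1))) := by ring
      _ ≤ _ := by gcongr
  have hT0 : 0 < T := by linarith [hT.1]
  refine ⟨T, hT, u * η, ⟨by nlinarith [hu.1], by nlinarith [hu.2]⟩, fun x hx => ⟨?_, ?_⟩, fun y hy => ?_⟩
  · obtain ⟨k1, k2⟩ := hbd T1 hT1 x T δ hx.1 hx.2 (by rw [abs_of_pos hT0]; exact hT.2) hδ0 hδ1
      (fun ρ h1 h2 h3 => by
        refine (hdT ρ h1 h2 h3).trans ?_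
        refine le_trans ?_ (Complex.abs_im_le_norm _)
        simp only [Complex.sub_im]
        have h4 := abs_abs_sub_abs_le_abs_sub T ρ.im
        rw [abs_of_pos hT0] at h4
        exact h4)
    exact ⟨k1, k2.trans hD'⟩
  · obtain ⟨k1, k2⟩ := hbd T1 hT1 x (-T) δ hx.1 hx.2 (by rw [abs_neg, abs_of_pos hT0]; exact hT.2) hδ0 hδ1
      (fun ρ h1 h2 h3 => by
        refine (hdT ρ h1 h2 h3).trans ?_
        refine le_trans ?_ (Complex.abs_im_le_norm _)
        simp only [Complex.sub_im]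
        have h4 := abs_abs_sub_abs_le_abs_sub (-T) ρ.im
        rw [abs_neg, abs_of_pos hT0] at h4
        exact h4)
    exact ⟨k1, k2.trans hD'⟩
  · obtain ⟨k1, k2⟩ := hbd T1 hT1 (u * η) y δ (by nlinarith [hu.1]) (by nlinarith [hu.2])
      ((abs_le.2 ⟨hy.1, hy.2⟩).trans hT.2) hδ0 hδ1
      (fun ρ h1 h2 h3 => by
        refine (hdσ ρ h1 h2 h3).trans ?_
        refine le_trans ?_ (Complex.abs_re_le_norm _)
        simp only [Complex.sub_re]
        exact le_rfl)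
    exact ⟨k1, k2.trans hD'⟩

end

end Pool.Agent.N739.LW
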