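import Pool.Agent.N739.LW.Key

/-!
# The lower bound in every window, in the logarithmic scale
-/

set_option autoImplicit false

open MeasureTheory Filter Topology Set

namespace Pool.Agent.N739.LW

noncomputable section

variable {G g : ℂ → ℂ} {a : ℕ → ℂ}

/-- the zero density hypothesis -/
def Dens (G : ℂ → ℂ) : Prop := ∀ c θ : ℝ, c < 1 → 0 < θ → θ ≤ 1 / 2 → ∃ C : ℝ, 1 ≤ C ∧ ∀ T : ℝ, 2 ≤ T →
  ((NZ G θ T).ncard : ℝ) ≤ C * T ^ (1 - c * θ) * Real.log T

theorem ev_log {A B q : ℝ} (hq : 0 < q) : ∀ᶠ U : ℝ in atTop, A + B * Real.log U ≤ U ^ q := by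
  have h1 : (fun _ : ℝ => A) =o[atTop] fun U : ℝ => U ^ q := by
    apply Asymptotics.isLittleO_const_left.2
    right
    exact tendsto_norm_atTop_atTop.comp (tendsto_rpow_atTop hq)
  have h2 : (fun U : ℝ => B * Real.log U) =o[atTop] fun U : ℝ => U ^ q :=
    (isLittleO_log_rpow_atTop hq).const_mul_left B
  have h3 := (h1.add h2).bound (c := 1) one_pos
  filter_upwards [h3, eventually_ge_atTop (0 : ℝ)] with U h4 h5
  rw [one_mul, Real.norm_of_nonneg (Real.rpow_nonneg h5 q)] at h4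
  exact (le_abs_self _).trans h4

theorem exp_two_le : Real.exp 2 ≤ 10 := by
  have h2 : Real.exp 2 = Real.exp 1 * Real.exp 1 := by rw [← Real.exp_add]; norm_num
  have := Real.exp_one_lt_d9
  have h3 := Real.exp_pos 1
  rw [h2]
  nlinarith

theorem LG.asym (h : LG G g a) (hdens : Dens G) {ρ₀ : ℂ} (hz : G ρ₀ = 0) (hβ : 0 < ρ₀.re)
    (hβ2 : ρ₀.re ≤ 1 / 2) {κ : ℝ} (hκ : 0 ≤ κ)
    (hκβ : κ * (1 - ρ₀.re) < ρ₀.re) {ε : ℝ} (hε : 0 < ε) :
    ∀ᶠ U : ℝ in atTop, ∀ c : ℂ,
      Real.exp ((ρ₀.re - ε) * U) ≤ ∫ u in U..(U + U ^ (-κ) / 2), ‖DD a u - c‖ := by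
  set β := ρ₀.re with hβd
  have hκ1 : 0 < 1 + κ := by linarith
  set a0 : ℝ := 1 - β with ha0
  have ha01 : (1 + κ) * a0 < 1 := by
    rw [ha0, add_mul]
    linarith
  have ha0' : a0 < 1 / (1 + κ) := by
    rw [lt_div_iff₀ hκ1]
    linarith
  set s : ℝ := min ((1 / (1 + κ) - a0) / 4) (β / 2) with hs
  have hs0 : 0 < s := lt_min (by linarith) (by linarith)
  have hs1 : s ≤ (1 / (1 + κ) - a0) / 4 := min_le_left _ _
  have hs2 : s ≤ β / 2 := min_le_right _ _
  set θ : ℝ := β - s with hθ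
  have hθ1 : 0 < θ := by linarith
  have hθ2 : θ ≤ 1 / 2 := by linarith
  set b0 : ℝ := 1 - (1 - s) * θ with hb0d
  have ha1 : b0 ≤ a0 + 2 * s := by
    rw [hb0d, hθ, ha0]
    have h1 : (1 - s) * (β - s) = β - s - s * (β - s) := by ring
    have h2 : s * (β - s) ≤ s * 1 := mul_le_mul_of_nonneg_left (by linarith) hs0.le
    rw [h1]
    linarith
  have ha2 : 0 < b0 := by
    rw [hb0d]
    have h1 : (1 - s) * θ = θ - s * θ := by ring
    have h2 : 0 ≤ s * θ := by positivity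
    rw [h1]
    linarith
  set b : ℝ := (1 + κ) * b0 with hb
  have hb1 : b < 1 := by
    have h1 : b ≤ (1 + κ) * (a0 + 2 * s) := by rw [hb]; gcongr
    have h2 : (1 + κ) * (a0 + 2 * s) ≤ (1 + κ) * (a0 + (1 / (1 + κ) - a0) / 2) := by
      gcongr
      linarith
    have h3 : (1 + κ) * (a0 + (1 / (1 + κ) - a0) / 2) = ((1 + κ) * a0 + 1) / 2 := by
      field_simp
      ring
    linarith
  set q : ℝ := (1 - b) / 3 with hq
  have hq0 : 0 < q := by rw [hq]; linarith
  have hb0 : 0 < b := by positivity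
  have hq1 : q < 1 := by rw [hq]; linarith
  obtain ⟨C, hC, hkey⟩ := h.key (θ := θ) hz hθ1 (by linarith)
  obtain ⟨C', hC', hcount⟩ := hdens (1 - s) θ (by linarith) hθ1 hθ2
  set ε' : ℝ := min (min ε s) 1 / 4 with hε'
  have hε'0 : 0 < ε' := by
    rw [hε']
    have : 0 < min (min ε s) 1 := lt_min (lt_min hε hs0) one_pos
    linarith
  have hε'1 : 4 * ε' ≤ ε := by
    rw [hε']; linarith [(min_le_left (min ε s) 1).trans (min_le_left ε s)]
  have hε'2 : 4 * ε' ≤ s := by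
    rw [hε']; linarith [(min_le_left (min ε s) 1).trans (min_le_right ε s)]
  have hε'3 : 4 * ε' ≤ 1 := by
    rw [hε']; linarith [min_le_right (min ε s) 1]
  set K : ℝ := 183 * C with hK
  have hK1 : 1 ≤ K := by rw [hK]; linarith
  have e1 := ev_log (A := Real.log (C * K)) (B := 1 + κ) hq0
  have e2 : ∀ᶠ U : ℝ in atTop, C' * K ^ b0 / ε' ≤ U ^ q := (tendsto_rpow_atTop hq0).eventually_ge_atTop _
  have e3 : ∀ᶠ U : ℝ in atTop, 6 / ε' ≤ U ^ (1 - q) :=
    (tendsto_rpow_atTop (by linarith : 0 < 1 - q)).eventually_ge_atTop _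
  filter_upwards [e1, e2, e3, eventually_ge_atTop (5 : ℝ), eventually_ge_atTop (1 / ε')] with U f1 f2 f3 f4 f5 c
  have hU0 : 0 < U := by linarith
  have hU1 : 1 ≤ U := by linarith
  have hUq1 : 1 ≤ U ^ q := Real.one_le_rpow hU1 hq0.le
  have hUκ : 1 ≤ U ^ κ := Real.one_le_rpow hU1 hκ
  have hUκ' : U ^ (-κ) = (U ^ κ)⁻¹ := Real.rpow_neg hU0.le κ
  have hUκ1 : U ^ (-κ) ≤ 1 := by rw [hUκ']; exact inv_le_one_of_one_le₀ hUκ
  have hUκ0 : 0 < U ^ (-κ) := Real.rpow_pos_of_pos hU0 _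
  have hεU : 1 ≤ ε' * U := by
    rw [div_le_iff₀ hε'0] at f5
    linarith
  set M : ℕ := ⌈2 * U⌉₊ with hM
  have hM1 : 2 * U ≤ M := Nat.le_ceil _
  have hM2 : (M : ℝ) ≤ 3 * U := by
    have := Nat.ceil_lt_add_one (show 0 ≤ 2 * U by linarith)
    linarith
  have hM0 : (0 : ℝ) < M := by linarith
  set δ : ℝ := U ^ (-κ) / (2 * C) / M with hδ
  have hδ0 : 0 < δ := by positivity
  have hMδ : M * δ = U ^ (-κ) / (2 * C) := by rw [hδ]; field_simp
  set T1 : ℝ := 30 / δ with hT1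
  have hT1e : T1 = 60 * C * M * U ^ κ := by
    rw [hT1, hδ, hUκ']
    field_simp
    ring
  have hT1C : 60 * C ≤ T1 := by
    rw [hT1e]
    have h1 : 1 ≤ (M : ℝ) := by linarith
    have h2 : 1 ≤ (M : ℝ) * U ^ κ := one_le_mul_of_one_le_of_one_le h1 hUκ
    calc 60 * C = 60 * C * 1 := by ring
      _ ≤ 60 * C * (M * U ^ κ) := by gcongr
      _ = _ := by ring
  obtain ⟨T, hT, hmain⟩ := hkey T1 (by linarith)
  have hTK : T ≤ K * U ^ (1 + κ) := by
    have h1 : T ≤ T1 + 1 := hT.2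
    have h2 : T1 ≤ 180 * C * U ^ (1 + κ) := by
      rw [hT1e, Real.rpow_add hU0, Real.rpow_one]
      calc 60 * C * M * U ^ κ ≤ 60 * C * (3 * U) * U ^ κ := by gcongr
        _ = _ := by ring
    have h3 : 1 ≤ U ^ (1 + κ) := Real.one_le_rpow hU1 hκ1.le
    have h4 : 1 ≤ C * U ^ (1 + κ) := one_le_mul_of_one_le_of_one_le hC h3
    rw [hK]
    linarith
  have hT2 : 60 ≤ T := by linarith [hT.1]
  have hT0 : 0 < T := by linarith
  have hCT : C * T ≤ C * K * U ^ (1 + κ) := by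
    calc C * T ≤ C * (K * U ^ (1 + κ)) := by gcongr
      _ = _ := by ring
  have hlogCT : Real.log (C * T) ≤ U ^ q := by
    refine (Real.log_le_log (by positivity) hCT).trans ?_
    rw [Real.log_mul (by positivity) (by positivity), Real.log_rpow hU0]
    exact f1
  have hlogT : Real.log T ≤ Real.log (C * T) := Real.log_le_log hT0 (le_mul_of_one_le_left hT0.le hC)
  have hlogT0 : 0 ≤ Real.log T := Real.log_nonneg (by linarith)
  set n : ℕ := (NZ G θ T).ncard with hn
  have hn1 : (n : ℝ) ≤ C' * (K ^ b0 * U ^ b) * U ^ q := by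
    refine (hcount T (by linarith)).trans ?_
    have h1 : T ^ b0 ≤ K ^ b0 * U ^ b := by
      calc T ^ b0 ≤ (K * U ^ (1 + κ)) ^ b0 := Real.rpow_le_rpow hT0.le hTK ha2.le
        _ = K ^ b0 * U ^ b := by
          rw [Real.mul_rpow (by linarith) (by positivity), ← Real.rpow_mul hU0.le]
    calc C' * T ^ (1 - (1 - s) * θ) * Real.log T = C' * T ^ b0 * Real.log T := by rw [hb0d]
      _ ≤ C' * (K ^ b0 * U ^ b) * U ^ q := by
        gcongr
        exact hlogT.trans hlogCT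
  have hn2 : (n : ℝ) * U ^ q ≤ ε' * U := by
    have h1 : U ^ b * U ^ q * U ^ q * U ^ q = U := by
      rw [← Real.rpow_add hU0, ← Real.rpow_add hU0, ← Real.rpow_add hU0]
      have : b + q + q + q = 1 := by rw [hq]; ring
      rw [this, Real.rpow_one]
    have h2 : C' * K ^ b0 ≤ ε' * U ^ q := by
      rw [div_le_iff₀ hε'0] at f2
      linarith
    calc (n : ℝ) * U ^ q ≤ C' * (K ^ b0 * U ^ b) * U ^ q * U ^ q := by gcongr
      _ = (C' * K ^ b0) * (U ^ b * U ^ q * U ^ q) := by ring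
      _ ≤ (ε' * U ^ q) * (U ^ b * U ^ q * U ^ q) := by gcongr
      _ = ε' * (U ^ b * U ^ q * U ^ q * U ^ q) := by ring
      _ = ε' * U := by rw [h1]
  have hn3 : (n : ℝ) ≤ ε' * U := by
    have : (n : ℝ) ≤ n * U ^ q := by
      have h0 : (0 : ℝ) ≤ n := Nat.cast_nonneg n
      exact le_mul_of_one_le_right h0 hUq1
    linarith
  have hn4 : n + 4 ≤ M := by
    have : (n : ℝ) + 4 ≤ M := by
      have h1 : ε' * U ≤ 1 / 4 * U := mul_le_mul_of_nonneg_right (by linarith) hU0.le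
      linarith
    exact_mod_cast this
  have hexp : Real.exp (3 / 2 * U) ≤ 10 ^ M := by
    have h1 : Real.exp 2 ≤ 10 := exp_two_le
    calc Real.exp (3 / 2 * U) ≤ Real.exp (M * 2) := Real.exp_le_exp.2 (by linarith)
      _ = Real.exp 2 ^ M := by rw [← Real.exp_nat_mul]
      _ ≤ 10 ^ M := pow_le_pow_left₀ (Real.exp_pos _).le h1 M
  have hk := hmain U δ M hU0.le hδ0 (by
      rw [hMδ]
      have : C * (U ^ (-κ) / (2 * C)) = U ^ (-κ) / 2 := by field_simp
      rw [this]; linarith) (by rw [hT1]; field_simp; exact le_rfl) hn4 hexp c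
  have hCT0 : 0 < C * T := by positivity
  have g1 : (C * T) ^ n ≤ Real.exp (ε' * U) := by
    calc (C * T) ^ n = Real.exp (n * Real.log (C * T)) := by
          rw [Real.exp_nat_mul, Real.exp_log hCT0]
      _ ≤ Real.exp (ε' * U) := by
          apply Real.exp_le_exp.2
          refine le_trans ?_ hn2
          gcongr
  have g2 : C * T ^ 6 ≤ Real.exp (ε' * U) := by
    have h1 : 6 * U ^ q ≤ ε' * U := by
      have h2 : U ^ q * U ^ (1 - q) = U := by
        rw [← Real.rpow_add hU0]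
        have : q + (1 - q) = 1 := by ring
        rw [this, Real.rpow_one]
      rw [div_le_iff₀ hε'0] at f3
      calc 6 * U ^ q ≤ (U ^ (1 - q) * ε') * U ^ q := by gcongr
        _ = ε' * (U ^ q * U ^ (1 - q)) := by ring
        _ = _ := by rw [h2]
    calc C * T ^ 6 ≤ (C * T) ^ 6 := by
          rw [mul_pow]
          have : C ≤ C ^ 6 := le_self_pow₀ hC (by norm_num)
          gcongr
      _ = Real.exp ((6 : ℕ) * Real.log (C * T)) := by
          rw [Real.exp_nat_mul, Real.exp_log hCT0]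
      _ ≤ Real.exp (ε' * U) := by
          apply Real.exp_le_exp.2
          push_cast
          linarith
  set J : ℝ := ∫ u in U..(U + M * δ), ‖DD a u - c‖ with hJ
  have hJ0 : 0 ≤ J := intervalIntegral.integral_nonneg (by
    rw [hMδ]
    have : 0 ≤ U ^ (-κ) / (2 * C) := by positivity
    linarith) fun u _ => norm_nonneg _
  have g3 : Real.exp (β * U) ≤ Real.exp (2 * ε' * U) * (J + Real.exp (θ * U)) := by
    have hpos : 0 ≤ J + Real.exp (θ * U) := by positivity
    calc Real.exp (β * U) ≤ C * T ^ 6 * (C * T) ^ n * (J + Real.exp (θ * U)) := hk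
      _ ≤ Real.exp (ε' * U) * Real.exp (ε' * U) * (J + Real.exp (θ * U)) := by gcongr
      _ = _ := by
        rw [← Real.exp_add]
        congr 2
        ring
  have g4 : Real.exp ((β - 2 * ε') * U) ≤ J + Real.exp (θ * U) := by
    have : Real.exp (β * U) = Real.exp (2 * ε' * U) * Real.exp ((β - 2 * ε') * U) := by
      rw [← Real.exp_add]; congr 1; ring
    rw [this] at g3
    exact le_of_mul_le_mul_left g3 (Real.exp_pos _)
  have h2e : (2 : ℝ) ≤ Real.exp 1 := by linarith [Real.exp_one_gt_d9]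
  have g5 : 2 * Real.exp (θ * U) ≤ Real.exp ((β - 2 * ε') * U) := by
    calc 2 * Real.exp (θ * U) ≤ Real.exp 1 * Real.exp (θ * U) := by gcongr
      _ = Real.exp (1 + θ * U) := by rw [Real.exp_add]
      _ ≤ _ := Real.exp_le_exp.2 (by
        have h1 : 4 * ε' * U ≤ s * U := mul_le_mul_of_nonneg_right hε'2 hU0.le
        have h2 : (β - 2 * ε') * U = θ * U + (s * U - 4 * ε' * U) + 2 * (ε' * U) := by rw [hθ]; ring
        rw [h2]
        linarith)
  have g6 : 2 * Real.exp ((β - ε) * U) ≤ Real.exp ((β - 2 * ε') * U) := by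
    calc 2 * Real.exp ((β - ε) * U) ≤ Real.exp 1 * Real.exp ((β - ε) * U) := by gcongr
      _ = Real.exp (1 + (β - ε) * U) := by rw [Real.exp_add]
      _ ≤ _ := Real.exp_le_exp.2 (by
        have h1 : 4 * ε' * U ≤ ε * U := mul_le_mul_of_nonneg_right hε'1 hU0.le
        have h2 : (β - 2 * ε') * U = (β - ε) * U + (ε * U - 4 * ε' * U) + 2 * (ε' * U) := by ring
        rw [h2]
        linarith)
  have g7 : Real.exp ((β - ε) * U) ≤ J := by linarith
  refine g7.trans ?_
  rw [hJ]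
  apply intervalIntegral.integral_mono_interval le_rfl _ _ _ (DDn_int a c _ _)
  · rw [hMδ]
    have : 0 ≤ U ^ (-κ) / (2 * C) := by positivity
    linarith
  · rw [hMδ]
    have : U ^ (-κ) / (2 * C) ≤ U ^ (-κ) / 2 := by
      apply div_le_div_of_nonneg_left hUκ0.le (by norm_num)
      linarith
    linarith
  · exact Eventually.of_forall fun u => norm_nonneg _

end

end Pool.Agent.N739.LW
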