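import Pool.Agent.N799.LW.Ops

/-!
# The operators applied to the summatory function
-/

set_option autoImplicit false

open MeasureTheory Filter Topology Set

namespace Pool.Agent.N739.LW

open Pool.Agent.H295R2 (Nice Lap avg phi step step_nice Lap_step)
open Pool.Agent.N799.LW (op wt ops op_nice ops_nice avg_sum op_sum ops_sum avg_sup op_sup ops_sup)

noncomputable section

/-- the summatory function -/
def DD (a : ℕ → ℂ) (u : ℝ) : ℂ := ∑ n ∈ Finset.Icc 1 ⌊Real.exp u⌋₊, a n

/-- the truncated sum -/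
def PN (a : ℕ → ℂ) (N : ℕ) (u : ℝ) : ℂ := ∑ n ∈ Finset.Icc 1 N, a n * step (u - Real.log n)

variable {a : ℕ → ℂ}

theorem PN_eq {N : ℕ} {u : ℝ} (hN : 1 ≤ N) (hu : u ≤ Real.log N) : PN a N u = DD a u := by
  have hN0 : (0 : ℝ) < N := by exact_mod_cast hN
  have h1 : Real.exp u ≤ N := by
    calc Real.exp u ≤ Real.exp (Real.log N) := Real.exp_le_exp.2 hu
      _ = N := Real.exp_log hN0
  unfold PN DD
  symm
  have hfl : ⌊Real.exp u⌋₊ ≤ N := by
    have := Nat.floor_le_floor h1
    rwa [Nat.floor_natCast] at this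
  refine Finset.sum_subset_zero_on_sdiff (fun n hn => ?_) (fun n hn => ?_) (fun n hn => ?_)
  · rw [Finset.mem_Icc] at hn ⊢
    omega
  · rw [Finset.mem_sdiff, Finset.mem_Icc, Finset.mem_Icc] at hn
    have hn1 : ⌊Real.exp u⌋₊ < n := by
      by_contra hcon
      exact hn.2 ⟨hn.1.1, by omega⟩
    have hn2 : Real.exp u < n := (Nat.floor_lt (Real.exp_pos _).le).1 hn1
    have hn3 : u < Real.log n := by
      have := Real.log_lt_log (Real.exp_pos _) hn2
      rwa [Real.log_exp] at this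
    unfold step
    rw [if_neg (by linarith), mul_zero]
  · rw [Finset.mem_Icc] at hn
    have hn0 : (0 : ℝ) < n := by exact_mod_cast hn.1
    have hn2 : (n : ℝ) ≤ Real.exp u := (Nat.le_floor_iff (Real.exp_pos _).le).1 hn.2
    have hn3 : Real.log n ≤ u := by
      have := Real.log_le_log hn0 hn2
      rwa [Real.log_exp] at this
    unfold step
    rw [if_pos (by linarith), mul_one]

theorem step_int (L x y : ℝ) : IntervalIntegrable (fun u : ℝ => step (u - L)) volume x y := by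
  have h1 := (step_nice.intervalIntegrable (x - L) (y - L)).comp_sub_right L
  simpa using h1

theorem PN_int (a : ℕ → ℂ) (N : ℕ) (x y : ℝ) : IntervalIntegrable (PN a N) volume x y := by
  have e : PN a N = ∑ n ∈ Finset.Icc 1 N, fun u : ℝ => a n * step (u - Real.log n) := by
    funext u
    rw [Finset.sum_apply]
    rfl
  rw [e]
  exact IntervalIntegrable.sum _ (fun n _ => (step_int (Real.log n) x y).const_mul _)

theorem DD_int (a : ℕ → ℂ) (x y : ℝ) : IntervalIntegrable (DD a) volume x y := by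
  set N : ℕ := ⌈Real.exp (max x y)⌉₊ with hN
  have hN1 : 1 ≤ N := Nat.one_le_iff_ne_zero.2 (by
    rw [hN]
    exact (Nat.ceil_pos.2 (Real.exp_pos _)).ne')
  have hNlog : max x y ≤ Real.log N := by
    have h1 : Real.exp (max x y) ≤ N := Nat.le_ceil _
    have := Real.log_le_log (Real.exp_pos _) h1
    rwa [Real.log_exp] at this
  refine (PN_int a N x y).congr ?_
  intro u hu
  rw [Set.mem_uIoc] at hu
  apply PN_eq hN1
  refine le_trans ?_ hNlog
  rcases hu with h | h
  · exact h.2.trans (le_max_right _ _)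
  · exact h.2.trans (le_max_left _ _)

theorem DDc_int (a : ℕ → ℂ) (c : ℂ) (x y : ℝ) : IntervalIntegrable (fun u => DD a u - c) volume x y :=
  (DD_int a x y).sub intervalIntegrable_const

theorem DDn_int (a : ℕ → ℂ) (c : ℂ) (x y : ℝ) : IntervalIntegrable (fun u => ‖DD a u - c‖) volume x y :=
  (DDc_int a c x y).norm

theorem avg_PN {δ : ℝ} (hδ : 0 < δ) {N : ℕ} (hN : 1 ≤ N) {u : ℝ} (hu : u + δ ≤ Real.log N) (c : ℂ) :
    avg δ (PN a N) u = avg δ (fun v => DD a v - c) u + c := by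
  have hδ0 : (δ : ℂ) ≠ 0 := by exact_mod_cast hδ.ne'
  have h0 : c = (1 / (δ : ℂ)) * ∫ v in (0:ℝ)..δ, c := by
    rw [intervalIntegral.integral_const, sub_zero, Complex.real_smul]
    field_simp
  conv_rhs => rw [h0]
  unfold avg
  rw [← mul_add, ← intervalIntegral.integral_add]
  · congr 1
    apply intervalIntegral.integral_congr
    intro v hv
    rw [uIcc_of_le hδ.le] at hv
    simp only
    rw [PN_eq hN (by linarith [hv.2]), ← h0]
    ring
  · have h2 := (DDc_int a c u (u + δ)).comp_add_left u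
    have h3 : ((1 / (δ : ℂ)) * ∫ v in (0:ℝ)..δ, c) = c := h0.symm
    rw [h3]
    simpa using h2
  · exact intervalIntegrable_const

theorem op_PN {δ : ℝ} (hδ : 0 < δ) {N : ℕ} (hN : 1 ≤ N) {u : ℝ} (hu : u + 2 * δ ≤ Real.log N) (α c : ℂ) :
    op δ (α, 0) (avg δ (PN a N)) u = op δ (α, 0) (avg δ fun v => DD a v - c) u := by
  have h1 := avg_PN (a := a) hδ hN (u := u) (by linarith) c
  have h2 := avg_PN (a := a) hδ hN (u := u + δ) (by linarith) c
  unfold op
  simp only
  rw [h1, h2]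
  ring

/-- the sum against the kernel is bounded by the mean of `‖D(u) - c‖` -/
theorem H_bound {δ U S : ℝ} (hδ : 0 < δ) (l : List (ℂ × ℂ)) (α c : ℂ) {N : ℕ} (hN : 1 ≤ N)
    (hN2 : U + (l.length + 4) * δ ≤ Real.log N)
    (hS : ∀ u ∈ Icc U (U + (l.length + 3) * δ), ∫ v in u..(u + δ), ‖DD a v - c‖ ≤ δ * S) :
    ‖∑ n ∈ Finset.Icc 1 N, a n *
      avg δ (avg δ (ops δ l (op δ (α, 0) (avg δ step)))) (U - Real.log n)‖ ≤
      (l.map (wt δ)).prod * (wt δ (α, 0) * S) := by
  have n1 := step_nice.avg hδ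
  have n2 := op_nice hδ (α, 0) n1
  have n3 := ops_nice hδ l n2
  have n4 := n3.avg hδ
  have e1 : avg δ (PN a N) = fun u => ∑ n ∈ Finset.Icc 1 N,
      a n * avg δ step (u - Real.log n) := by
    funext u
    exact avg_sum step_nice _ _ _ u
  have e2 : op δ (α, 0) (avg δ (PN a N)) = fun u => ∑ n ∈ Finset.Icc 1 N,
      a n * op δ (α, 0) (avg δ step) (u - Real.log n) := by
    rw [e1]
    funext u
    exact op_sum _ n1 _ _ _ u
  have e3 : ops δ l (op δ (α, 0) (avg δ (PN a N))) = fun u => ∑ n ∈ Finset.Icc 1 N,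
      a n * ops δ l (op δ (α, 0) (avg δ step)) (u - Real.log n) := by
    rw [e2]
    exact ops_sum hδ l n2 _ _ _
  have e4 : avg δ (ops δ l (op δ (α, 0) (avg δ (PN a N)))) = fun u => ∑ n ∈ Finset.Icc 1 N,
      a n * avg δ (ops δ l (op δ (α, 0) (avg δ step))) (u - Real.log n) := by
    rw [e3]
    funext u
    exact avg_sum n3 _ _ _ u
  have e5 : avg δ (avg δ (ops δ l (op δ (α, 0) (avg δ (PN a N))))) U = ∑ n ∈ Finset.Icc 1 N,
      a n * avg δ (avg δ (ops δ l (op δ (α, 0) (avg δ step)))) (U - Real.log n) := by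
    rw [e4]
    exact avg_sum n4 _ _ _ U
  rw [← e5]
  -- the bound of the first average
  have b1 : ∀ u ∈ Icc U (U + (l.length + 3) * δ), ‖avg δ (fun v => DD a v - c) u‖ ≤ S := by
    intro u hu
    unfold avg
    rw [norm_mul, norm_div, norm_one, Complex.norm_real, Real.norm_of_nonneg hδ.le]
    have h1 : ‖∫ v in (0:ℝ)..δ, (DD a (u + v) - c)‖ ≤ δ * S := by
      rw [intervalIntegral.integral_comp_add_left (fun v => DD a v - c) u, add_zero]
      exact (intervalIntegral.norm_integral_le_integral_norm (by linarith)).trans (hS u hu)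
    calc 1 / δ * ‖∫ v in (0:ℝ)..δ, (DD a (u + v) - c)‖ ≤ 1 / δ * (δ * S) := by gcongr
      _ = S := by field_simp
  have b2 : ∀ u ∈ Icc U (U + (l.length + 2) * δ), ‖op δ (α, 0) (avg δ (PN a N)) u‖ ≤ wt δ (α, 0) * S := by
    intro u hu
    rw [op_PN hδ hN (by linarith [hu.2]) α c]
    refine op_sup hδ (α, 0) (a := U) (b := U + (l.length + 2) * δ) (fun v hv => b1 v ?_) u hu
    exact ⟨hv.1, by linarith [hv.2]⟩
  have b3 : ∀ u ∈ Icc U (U + 2 * δ), ‖ops δ l (op δ (α, 0) (avg δ (PN a N))) u‖ ≤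
      (l.map (wt δ)).prod * (wt δ (α, 0) * S) := by
    refine ops_sup hδ l (U + 2 * δ) fun u hu => b2 u ⟨hu.1, by linarith [hu.2]⟩
  have b4 := avg_sup hδ (a := U) (b := U + δ) (fun u hu => b3 u ⟨hu.1, by linarith [hu.2]⟩)
  exact avg_sup hδ (a := U) (b := U) b4 U ⟨le_rfl, le_rfl⟩

end

end Pool.Agent.N739.LW
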