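import Pool.Agent.N739.LW.Geo

/-!
# Shifting the contour in a rectangle to the right of the centre
-/

set_option autoImplicit false

open MeasureTheory Filter Topology Set

namespace Pool.Agent.N739.LW

open H370 (rect_residue mult RI RI_zero)

noncomputable section

variable {G g : ℂ → ℂ} {a : ℕ → ℂ}

/-- the sum of the Dirichlet series -/
def Fz (G g : ℂ → ℂ) (s : ℂ) : ℂ := deriv G s / G s + g s

theorem LG.summ (h : LG G g a) {s : ℂ} (hs : 3 / 2 ≤ s.re) :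
    Summable (fun n => ‖LSeries.term a s n‖) ∧
      (∑' n, ‖LSeries.term a s n‖) ≤ ∑' n : ℕ, ‖a n‖ * (n : ℝ) ^ (-(3 / 2) : ℝ) := by
  have hle : ∀ n, ‖LSeries.term a s n‖ ≤ ‖a n‖ * (n : ℝ) ^ (-(3 / 2) : ℝ) := by
    intro n
    rcases Nat.eq_zero_or_pos n with rfl | hn
    · rw [LSeries.term_zero, norm_zero]
      positivity
    · rw [LSeries.term_of_ne_zero hn.ne', norm_div, Complex.norm_natCast_cpow_of_pos hn, div_eq_mul_inv,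
        ← Real.rpow_neg (Nat.cast_nonneg n)]
      apply mul_le_mul_of_nonneg_left _ (norm_nonneg _)
      apply Real.rpow_le_rpow_of_exponent_le
      · exact_mod_cast hn
      · linarith
  have h2 : Summable fun n => ‖LSeries.term a s n‖ := Summable.of_nonneg_of_le (fun n => norm_nonneg _) hle h.sum
  exact ⟨h2, h2.tsum_le_tsum hle h.sum⟩

theorem LG.Fz_bound (h : LG G g a) : ∃ C : ℝ, 0 < C ∧ ∀ s : ℂ, 3 / 2 ≤ s.re → ‖Fz G g s‖ ≤ C := by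
  refine ⟨(∑' n : ℕ, ‖a n‖ * (n : ℝ) ^ (-(3 / 2) : ℝ)) + 1, ?_, fun s hs => ?_⟩
  · have : 0 ≤ ∑' n : ℕ, ‖a n‖ * (n : ℝ) ^ (-(3 / 2) : ℝ) := tsum_nonneg fun n => by positivity
    linarith
  · unfold Fz
    rw [← h.ser s hs]
    unfold LSeries
    obtain ⟨h1, h2⟩ := h.summ hs
    have h3 := norm_tsum_le_tsum_norm h1
    linarith

theorem LG.Fz_diff (h : LG G g a) {s : ℂ} (hs : 3 / 2 ≤ s.re) : DifferentiableAt ℂ (Fz G g) s := by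
  unfold Fz
  have d2 : AnalyticAt ℂ G s := h.diff.analyticAt s
  exact (d2.deriv.differentiableAt.div (h.diff s) (h.ne s (by linarith))).add (h.gd s (by linarith))

/-- zeros in the rectangle -/
def RZ (G : ℂ → ℂ) (σ T : ℝ) : Set ℂ := {s | s ∈ Set.Ioo σ (3 / 2 : ℝ) ×ℂ Set.Ioo (-T) T ∧ G s = 0}

theorem RZ_mem (h : LG G g a) {σ T : ℝ} {s : ℂ} (h1 : s ∈ RZ G σ T) :
    G s = 0 ∧ σ < s.re ∧ s.re < 1 ∧ |s.im| < T := by
  obtain ⟨⟨h1, h2⟩, h3⟩ := h1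
  exact ⟨h3, h1.1, h.re_lt h3, abs_lt.2 h2⟩

/-- the main contour estimate -/
theorem LG.rect_main (h : LG G g a) {η : ℝ} (hη : 0 < η) (hη1 : η ≤ 1 / 2) : ∃ C : ℝ, 1 ≤ C ∧
    ∀ T1 : ℝ, 3 ≤ T1 → ∃ T ∈ Icc T1 (T1 + 1), ∃ σ ∈ Icc η (2 * η), (RZ G σ T).Finite ∧
    ‖∑ᶠ s ∈ RZ G σ T, (mult G s : ℂ)‖ ≤ C * T ^ 6 ∧
    ∀ (f : ℂ → ℂ) (B : ℝ), Differentiable ℂ f →
      (∀ x ∈ Icc η (3 / 2 : ℝ), ‖f ⟨x, T⟩‖ ≤ B) → (∀ x ∈ Icc η (3 / 2 : ℝ), ‖f ⟨x, -T⟩‖ ≤ B) →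
      (∀ y ∈ Icc (-T) T, ‖f ⟨σ, y⟩‖ ≤ B) →
      ‖(∫ y in (-T)..T, Fz G g ⟨3 / 2, y⟩ * f ⟨3 / 2, y⟩) -
        2 * Real.pi * ∑ᶠ s ∈ RZ G σ T, (mult G s : ℂ) * f s‖ ≤ C * T ^ 6 * B := by
  obtain ⟨C1, hC1, hedge⟩ := h.edges hη hη1
  obtain ⟨C2, hC2, hr⟩ := h.Fz_bound
  obtain ⟨C3', hg'⟩ := h.gb η hη
  set C3 : ℝ := max C3' 0 with hC3d
  have hC3 : 0 ≤ C3 := le_max_right _ _
  have hg : ∀ z : ℂ, η ≤ z.re → ‖g z‖ ≤ C3 := fun z hz => (hg' z hz).trans (le_max_left _ _)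
  refine ⟨6 * C1 + 4 * C2 + 8 * C3, by linarith, fun T1 hT1 => ?_⟩
  obtain ⟨T, hT, σ, hσ, hhor, hver⟩ := hedge T1 hT1
  have hT3 : 3 ≤ T := hT1.trans hT.1
  have hT0 : 0 < T := by linarith
  have hT15 : T1 ^ 5 ≤ T ^ 5 := pow_le_pow_left₀ (by linarith) hT.1 5
  have hσ32 : σ < 3 / 2 := by linarith [hσ.2]
  refine ⟨T, hT, σ, hσ, ?_⟩
  -- pointwise bounds
  have g1 : ∀ x ∈ Icc σ (3 / 2 : ℝ), ‖deriv G (⟨x, -T⟩ : ℂ) / G ⟨x, -T⟩‖ ≤ C1 * T ^ 5 := fun x hx =>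
    ((hhor x ⟨hσ.1.trans hx.1, by linarith [hx.2]⟩).2.2).trans (by gcongr)
  have g2 : ∀ x ∈ Icc σ (3 / 2 : ℝ), ‖deriv G (⟨x, T⟩ : ℂ) / G ⟨x, T⟩‖ ≤ C1 * T ^ 5 := fun x hx =>
    ((hhor x ⟨hσ.1.trans hx.1, by linarith [hx.2]⟩).1.2).trans (by gcongr)
  have g3 : ∀ y ∈ Icc (-T) T, ‖deriv G (⟨σ, y⟩ : ℂ) / G ⟨σ, y⟩‖ ≤ C1 * T ^ 5 := fun y hy =>
    ((hver y hy).2).trans (by gcongr)
  have g4 : ∀ y : ℝ, ‖deriv G (⟨3 / 2, y⟩ : ℂ) / G ⟨3 / 2, y⟩‖ ≤ C2 + C3 := by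
    intro y
    have e : deriv G (⟨3 / 2, y⟩ : ℂ) / G ⟨3 / 2, y⟩ = Fz G g ⟨3 / 2, y⟩ - g ⟨3 / 2, y⟩ := by
      unfold Fz; ring
    rw [e]
    exact (norm_sub_le _ _).trans (add_le_add (hr _ le_rfl) (hg _ (by simp only; linarith)))
  have gx : ∀ x ∈ Icc σ (3 / 2 : ℝ), ∀ y : ℝ, ‖g ⟨x, y⟩‖ ≤ C3 := fun x hx y =>
    hg _ (by simp only; linarith [hσ.1, hx.1])
  have hbd : ∀ s ∈ Set.Icc σ (3 / 2 : ℝ) ×ℂ Set.Icc (-T) T, G s = 0 →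
      s ∈ Set.Ioo σ (3 / 2 : ℝ) ×ℂ Set.Ioo (-T) T := by
    rintro s ⟨hs1, hs2⟩ h0
    have hs1' : s.re ∈ Icc σ (3 / 2 : ℝ) := hs1
    have hs2' : s.im ∈ Icc (-T) T := hs2
    have es : s = ⟨s.re, s.im⟩ := rfl
    have hx : s.re ∈ Icc η 2 := ⟨hσ.1.trans hs1'.1, by linarith [hs1'.2]⟩
    refine ⟨⟨lt_of_le_of_ne hs1'.1 ?_, lt_of_le_of_ne hs1'.2 ?_⟩, ⟨lt_of_le_of_ne hs2'.1 ?_, lt_of_le_of_ne hs2'.2 ?_⟩⟩
    · intro h1
      rw [es, ← h1] at h0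
      exact (hver _ hs2').1 h0
    · intro h1
      have := h.re_lt h0
      rw [h1] at this
      norm_num at this
    · intro h1
      rw [es, ← h1] at h0
      exact (hhor _ hx).2.1 h0
    · intro h1
      rw [es, h1] at h0
      exact (hhor _ hx).1.1 h0
  have han : AnalyticOnNhd ℂ G (Set.Icc σ (3 / 2 : ℝ) ×ℂ Set.Icc (-T) T) := fun z _ =>
    h.diff.analyticAt z
  obtain ⟨hfin, hcnt⟩ := rect_residue G (fun _ => 1) σ (3 / 2) (-T) T hσ32 (by linarith) han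
    (differentiable_const _) hbd
  have a1 : |(3 : ℝ) / 2 - σ| ≤ 3 / 2 := by rw [abs_of_pos (by linarith)]; linarith [hσ.1]
  have a2 : |T - (-T)| = 2 * T := by rw [abs_of_pos (by linarith)]; ring
  have hset : RZ G σ T = {s | s ∈ Set.Ioo σ (3 / 2 : ℝ) ×ℂ Set.Ioo (-T) T ∧ G s = 0} := rfl
  have hT5 : 1 ≤ T ^ 5 := one_le_pow₀ (by linarith)
  have hT6 : T ^ 6 = T ^ 5 * T := by ring
  have hT56 : T ^ 5 * 3 ≤ T ^ 6 := by rw [hT6]; gcongr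
  have hcount : ‖∑ᶠ s ∈ RZ G σ T, (mult G s : ℂ)‖ ≤ (6 * C1 + 4 * C2 + 8 * C3) * T ^ 6 := by
    simp only [mul_one] at hcnt
    have k1 : ‖∫ x in σ..(3 / 2 : ℝ), deriv G (⟨x, -T⟩ : ℂ) / G ⟨x, -T⟩‖ ≤ (C1 * T ^ 5) * (3 / 2) := by
      refine (intervalIntegral.norm_integral_le_of_norm_le_const (C := C1 * T ^ 5) ?_).trans (by gcongr)
      intro x hx
      rw [uIoc_of_le hσ32.le] at hx
      exact g1 x ⟨hx.1.le, hx.2⟩
    have k2 : ‖∫ x in σ..(3 / 2 : ℝ), deriv G (⟨x, T⟩ : ℂ) / G ⟨x, T⟩‖ ≤ (C1 * T ^ 5) * (3 / 2) := by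
      refine (intervalIntegral.norm_integral_le_of_norm_le_const (C := C1 * T ^ 5) ?_).trans (by gcongr)
      intro x hx
      rw [uIoc_of_le hσ32.le] at hx
      exact g2 x ⟨hx.1.le, hx.2⟩
    have k3 : ‖∫ y in (-T)..T, deriv G (⟨σ, y⟩ : ℂ) / G ⟨σ, y⟩‖ ≤ (C1 * T ^ 5) * (2 * T) := by
      rw [← a2]
      apply intervalIntegral.norm_integral_le_of_norm_le_const
      intro y hy
      rw [uIoc_of_le (by linarith)] at hy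
      exact g3 y ⟨hy.1.le, hy.2⟩
    have k4 : ‖∫ y in (-T)..T, deriv G (⟨3 / 2, y⟩ : ℂ) / G ⟨3 / 2, y⟩‖ ≤ (C2 + C3) * (2 * T) := by
      rw [← a2]
      apply intervalIntegral.norm_integral_le_of_norm_le_const
      intro y hy
      exact g4 y
    rw [← hset] at hcnt
    set K1 := ∫ x in σ..(3 / 2 : ℝ), deriv G (⟨x, -T⟩ : ℂ) / G ⟨x, -T⟩
    set K2 := ∫ x in σ..(3 / 2 : ℝ), deriv G (⟨x, T⟩ : ℂ) / G ⟨x, T⟩
    set K3 := ∫ y in (-T)..T, deriv G (⟨σ, y⟩ : ℂ) / G ⟨σ, y⟩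
    set K4 := ∫ y in (-T)..T, deriv G (⟨3 / 2, y⟩ : ℂ) / G ⟨3 / 2, y⟩
    set Sg := ∑ᶠ s ∈ RZ G σ T, (mult G s : ℂ) with hSg
    have e : ‖(2 * Real.pi * Complex.I) * Sg‖ = 2 * Real.pi * ‖Sg‖ := by
      rw [norm_mul, norm_mul, norm_mul, Complex.norm_I, Complex.norm_real, Complex.norm_ofNat,
        Real.norm_of_nonneg Real.pi_pos.le, mul_one]
    have t1 : ‖K1 - K2 + Complex.I * K4 - Complex.I * K3‖ ≤ ‖K1‖ + ‖K2‖ + ‖K4‖ + ‖K3‖ := by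
      refine (norm_sub_le _ _).trans ?_
      refine (add_le_add (norm_add_le _ _) le_rfl).trans ?_
      refine (add_le_add (add_le_add (norm_sub_le _ _) le_rfl) le_rfl).trans ?_
      rw [norm_mul, norm_mul, Complex.norm_I, one_mul, one_mul]
    rw [hcnt, e] at t1
    have hpi : 1 ≤ 2 * Real.pi := by linarith [Real.pi_gt_three]
    have h5 : ‖Sg‖ ≤ 2 * Real.pi * ‖Sg‖ := by nlinarith [norm_nonneg Sg]
    have h6 : (C2 + C3) * (2 * T) ≤ (C2 + C3) * (2 * T ^ 6) := by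
      have : T ≤ T ^ 6 := by
        rw [hT6]; nlinarith
      have h7 : 0 ≤ C2 + C3 := by linarith
      gcongr
    have h8 : (C1 * T ^ 5) * (3 / 2) + (C1 * T ^ 5) * (3 / 2) ≤ C1 * T ^ 6 := by nlinarith
    have h9 : (C1 * T ^ 5) * (2 * T) = 2 * C1 * T ^ 6 := by ring
    have h10 : 0 ≤ T ^ 6 := by positivity
    nlinarith [mul_nonneg hC2.le h10, mul_nonneg hC3 h10, mul_nonneg (by linarith : (0 : ℝ) ≤ C1) h10]
  refine ⟨hfin, hcount, fun f B hh htB hbB hlB => ?_⟩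
  have hB : 0 ≤ B := (norm_nonneg _).trans (htB 1 ⟨by linarith, by norm_num⟩)
  have r1 := (rect_residue G f σ (3 / 2) (-T) T hσ32 (by linarith) han hh hbd).2
  have r2 : RI σ (3 / 2) (-T) T (fun s => g s * f s) = 0 := by
    apply RI_zero hσ32.le (by linarith)
    intro s hs
    obtain ⟨hs1, hs2⟩ := hs
    have hs1' : s.re ∈ Icc σ (3 / 2 : ℝ) := hs1
    exact ((h.gd s (by linarith [hs1'.1, hσ.1])).mul (hh s)).differentiableWithinAt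
  unfold RI at r2
  have b1 : ‖∫ x in σ..(3 / 2 : ℝ), deriv G (⟨x, -T⟩ : ℂ) / G ⟨x, -T⟩ * f ⟨x, -T⟩‖ ≤
      (C1 * T ^ 5) * B * (3 / 2) := by
    refine (intervalIntegral.norm_integral_le_of_norm_le_const (C := C1 * T ^ 5 * B) ?_).trans (by gcongr)
    intro x hx
    rw [uIoc_of_le hσ32.le] at hx
    have hx' : x ∈ Icc σ (3 / 2 : ℝ) := ⟨hx.1.le, hx.2⟩
    rw [norm_mul]
    exact mul_le_mul (g1 x hx') (hbB x ⟨hσ.1.trans hx'.1, hx'.2⟩) (norm_nonneg _) (by positivity)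
  have b2 : ‖∫ x in σ..(3 / 2 : ℝ), deriv G (⟨x, T⟩ : ℂ) / G ⟨x, T⟩ * f ⟨x, T⟩‖ ≤
      (C1 * T ^ 5) * B * (3 / 2) := by
    refine (intervalIntegral.norm_integral_le_of_norm_le_const (C := C1 * T ^ 5 * B) ?_).trans (by gcongr)
    intro x hx
    rw [uIoc_of_le hσ32.le] at hx
    have hx' : x ∈ Icc σ (3 / 2 : ℝ) := ⟨hx.1.le, hx.2⟩
    rw [norm_mul]
    exact mul_le_mul (g2 x hx') (htB x ⟨hσ.1.trans hx'.1, hx'.2⟩) (norm_nonneg _) (by positivity)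
  have b3 : ‖∫ y in (-T)..T, deriv G (⟨σ, y⟩ : ℂ) / G ⟨σ, y⟩ * f ⟨σ, y⟩‖ ≤
      (C1 * T ^ 5) * B * (2 * T) := by
    rw [← a2]
    apply intervalIntegral.norm_integral_le_of_norm_le_const
    intro y hy
    rw [uIoc_of_le (by linarith)] at hy
    have hy' : y ∈ Icc (-T) T := ⟨hy.1.le, hy.2⟩
    rw [norm_mul]
    exact mul_le_mul (g3 y hy') (hlB y hy') (norm_nonneg _) (by positivity)
  have b4 : ‖∫ x in σ..(3 / 2 : ℝ), g (⟨x, -T⟩ : ℂ) * f ⟨x, -T⟩‖ ≤ C3 * B * (3 / 2) := by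
    refine (intervalIntegral.norm_integral_le_of_norm_le_const (C := C3 * B) ?_).trans (by gcongr)
    intro x hx
    rw [uIoc_of_le hσ32.le] at hx
    have hx' : x ∈ Icc σ (3 / 2 : ℝ) := ⟨hx.1.le, hx.2⟩
    rw [norm_mul]
    exact mul_le_mul (gx x hx' _) (hbB x ⟨hσ.1.trans hx'.1, hx'.2⟩) (norm_nonneg _) (by positivity)
  have b5 : ‖∫ x in σ..(3 / 2 : ℝ), g (⟨x, T⟩ : ℂ) * f ⟨x, T⟩‖ ≤ C3 * B * (3 / 2) := by
    refine (intervalIntegral.norm_integral_le_of_norm_le_const (C := C3 * B) ?_).trans (by gcongr)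
    intro x hx
    rw [uIoc_of_le hσ32.le] at hx
    have hx' : x ∈ Icc σ (3 / 2 : ℝ) := ⟨hx.1.le, hx.2⟩
    rw [norm_mul]
    exact mul_le_mul (gx x hx' _) (htB x ⟨hσ.1.trans hx'.1, hx'.2⟩) (norm_nonneg _) (by positivity)
  have b6 : ‖∫ y in (-T)..T, g (⟨σ, y⟩ : ℂ) * f ⟨σ, y⟩‖ ≤ C3 * B * (2 * T) := by
    rw [← a2]
    apply intervalIntegral.norm_integral_le_of_norm_le_const
    intro y hy
    rw [uIoc_of_le (by linarith)] at hy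
    have hy' : y ∈ Icc (-T) T := ⟨hy.1.le, hy.2⟩
    rw [norm_mul]
    exact mul_le_mul (gx σ ⟨le_rfl, hσ32.le⟩ _) (hlB y hy') (norm_nonneg _) (by positivity)
  -- the right edge
  have hmk : Continuous fun y : ℝ => (⟨3 / 2, y⟩ : ℂ) := by
    have e : (fun y : ℝ => (⟨3 / 2, y⟩ : ℂ)) = fun y : ℝ => ((3 / 2 : ℝ) : ℂ) + y * Complex.I := by
      funext y
      exact Complex.mk_eq_add_mul_I _ _
    rw [e]
    fun_prop
  have hcd : Continuous (deriv G) := by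
    have : AnalyticOnNhd ℂ G univ := fun z _ => h.diff.analyticAt z
    exact continuousOn_univ.1 this.deriv.continuousOn
  have i1 : IntervalIntegrable (fun y : ℝ => deriv G (⟨3 / 2, y⟩ : ℂ) / G ⟨3 / 2, y⟩ * f ⟨3 / 2, y⟩)
      volume (-T) T := by
    apply Continuous.intervalIntegrable
    refine ((hcd.comp hmk).div (h.diff.continuous.comp hmk) fun y => ?_).mul
      (hh.continuous.comp hmk)
    exact h.ne _ (by simp only; norm_num)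
  have i2 : IntervalIntegrable (fun y : ℝ => g (⟨3 / 2, y⟩ : ℂ) * f ⟨3 / 2, y⟩) volume (-T) T := by
    apply Continuous.intervalIntegrable
    refine Continuous.mul ?_ (hh.continuous.comp hmk)
    rw [continuous_iff_continuousAt]
    intro y
    exact ContinuousAt.comp (f := fun y : ℝ => (⟨3 / 2, y⟩ : ℂ)) (h.gd _ (by simp only; norm_num)).continuousAt
      hmk.continuousAt
  have e1 : (∫ y in (-T)..T, Fz G g ⟨3 / 2, y⟩ * f ⟨3 / 2, y⟩) =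
      (∫ y in (-T)..T, deriv G (⟨3 / 2, y⟩ : ℂ) / G ⟨3 / 2, y⟩ * f ⟨3 / 2, y⟩) +
      ∫ y in (-T)..T, g (⟨3 / 2, y⟩ : ℂ) * f ⟨3 / 2, y⟩ := by
    rw [← intervalIntegral.integral_add i1 i2]
    apply intervalIntegral.integral_congr
    intro y _
    simp only [Fz]
    ring
  rw [← hset] at r1
  set B1 := ∫ x in σ..(3 / 2 : ℝ), deriv G (⟨x, -T⟩ : ℂ) / G ⟨x, -T⟩ * f ⟨x, -T⟩ with hB1
  set B2 := ∫ x in σ..(3 / 2 : ℝ), deriv G (⟨x, T⟩ : ℂ) / G ⟨x, T⟩ * f ⟨x, T⟩ with hB2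
  set B3 := ∫ y in (-T)..T, deriv G (⟨σ, y⟩ : ℂ) / G ⟨σ, y⟩ * f ⟨σ, y⟩ with hB3
  set B4 := ∫ x in σ..(3 / 2 : ℝ), g (⟨x, -T⟩ : ℂ) * f ⟨x, -T⟩ with hB4
  set B5 := ∫ x in σ..(3 / 2 : ℝ), g (⟨x, T⟩ : ℂ) * f ⟨x, T⟩ with hB5
  set B6 := ∫ y in (-T)..T, g (⟨σ, y⟩ : ℂ) * f ⟨σ, y⟩ with hB6
  set R1 := ∫ y in (-T)..T, deriv G (⟨3 / 2, y⟩ : ℂ) / G ⟨3 / 2, y⟩ * f ⟨3 / 2, y⟩ with hR1
  set R2 := ∫ y in (-T)..T, g (⟨3 / 2, y⟩ : ℂ) * f ⟨3 / 2, y⟩ with hR2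
  set Sg := ∑ᶠ s ∈ RZ G σ T, (mult G s : ℂ) * f s with hSg
  rw [e1]
  have e2 : Complex.I * (R1 + R2 - 2 * Real.pi * Sg) =
      -B1 + B2 + Complex.I * B3 - B4 + B5 + Complex.I * B6 := by
    linear_combination r1 + r2
  have e3 : ‖R1 + R2 - 2 * Real.pi * Sg‖ = ‖-B1 + B2 + Complex.I * B3 - B4 + B5 + Complex.I * B6‖ := by
    rw [← e2, norm_mul, Complex.norm_I, one_mul]
  rw [e3]
  have t1 : ‖-B1 + B2 + Complex.I * B3 - B4 + B5 + Complex.I * B6‖ ≤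
      ‖B1‖ + ‖B2‖ + ‖B3‖ + ‖B4‖ + ‖B5‖ + ‖B6‖ := by
    refine (norm_add_le _ _).trans ?_
    refine (add_le_add (norm_add_le _ _) le_rfl).trans ?_
    refine (add_le_add (add_le_add (norm_sub_le _ _) le_rfl) le_rfl).trans ?_
    refine (add_le_add (add_le_add (add_le_add (norm_add_le _ _) le_rfl) le_rfl) le_rfl).trans ?_
    refine (add_le_add (add_le_add (add_le_add (add_le_add (norm_add_le _ _) le_rfl) le_rfl) le_rfl) le_rfl).trans ?_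
    rw [norm_mul, norm_mul, Complex.norm_I, one_mul, one_mul, norm_neg]
  refine t1.trans ?_
  have hBT : 0 ≤ B * T ^ 6 := by positivity
  have hfin1 : (C1 * T ^ 5) * B * (3 / 2) + (C1 * T ^ 5) * B * (3 / 2) + (C1 * T ^ 5) * B * (2 * T) =
      3 * C1 * (B * T ^ 5) + 2 * C1 * (B * T ^ 6) := by ring
  have hfin2 : B * T ^ 5 * 3 ≤ B * T ^ 6 := by
    rw [mul_assoc]
    gcongr
  have hfin3 : C3 * B * (3 / 2) + C3 * B * (3 / 2) + C3 * B * (2 * T) ≤ 5 * C3 * (B * T ^ 6) := by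
    have hT61 : 1 ≤ T ^ 6 := one_le_pow₀ (by linarith)
    have hT62 : T ≤ T ^ 6 := by rw [hT6]; nlinarith
    have h1 : C3 * B * 1 ≤ C3 * B * T ^ 6 := by gcongr
    have h2 : C3 * B * T ≤ C3 * B * T ^ 6 := by gcongr
    nlinarith
  have hfin4 : 3 * C1 * (B * T ^ 5) ≤ C1 * (B * T ^ 6) := by nlinarith
  have hfin5 : (6 * C1 + 4 * C2 + 8 * C3) * T ^ 6 * B = 6 * (C1 * (B * T ^ 6)) + 4 * (C2 * (B * T ^ 6)) +
      8 * (C3 * (B * T ^ 6)) := by ring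
  rw [hfin5]
  have hp1 : 0 ≤ C1 * (B * T ^ 6) := by positivity
  have hp2 : 0 ≤ C2 * (B * T ^ 6) := by positivity
  have hp3 : 0 ≤ C3 * (B * T ^ 6) := by positivity
  nlinarith

end

end Pool.Agent.N739.LW
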