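import Pool.Agent.TH270.MS.PW
import Pool.Agent.W263.BSD.Euler2
import Pool.Agent.N739.LW.Base
import Pool.Agent.N739.LW.Rect

/-!
# Upper bounds in the mean from a zero free half plane
-/

set_option autoImplicit false

open MeasureTheory Filter Topology Set Metric

namespace Pool.Agent.N739.LW

noncomputable section

variable {G g : ℂ → ℂ} {a : ℕ → ℂ}

theorem one_le_log7 (t : ℝ) : 1 ≤ Real.log (7 + |t|) := by
  rw [Real.le_log_iff_exp_le (by positivity)]
  have := Real.exp_one_lt_d9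
  have := abs_nonneg t
  linarith

/-- the logarithmic derivative in a zero free half plane -/
theorem LG.ld_log (h : LG G g a) {θ σ : ℝ} (hθ : 0 ≤ θ) (hσ : θ < σ) (hσ2 : σ ≤ 2)
    (hfree : ∀ z : ℂ, θ < z.re → G z ≠ 0) :
    ∃ C : ℝ, 0 < C ∧ ∀ z : ℂ, σ ≤ z.re → ‖deriv G z / G z‖ ≤ C * Real.log (7 + |z.im|) := by
  set d : ℝ := (σ - θ) / 3 with hd
  have hd0 : 0 < d := by rw [hd]; linarith
  obtain ⟨A, K, hA, hgro⟩ := h.gro (θ + d) (by linarith)
  obtain ⟨c₀, hc₀, hlow⟩ := h.low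
  obtain ⟨C1, hC1, hF⟩ := h.Fz_bound
  obtain ⟨B, hB⟩ := h.gb σ (by linarith)
  set L : ℝ := |Real.log (A / c₀)| + K + 1 with hL
  have hL0 : 0 < L := by positivity
  refine ⟨6 * L / d / d + C1 + |B|, by positivity, fun z hz => ?_⟩
  have hlog := one_le_log7 z.im
  rcases le_or_gt z.re 3 with hz3 | hz3
  swap
  · have h1 : deriv G z / G z = Fz G g z - g z := by unfold Fz; ring
    rw [h1]
    have h2 : ‖Fz G g z - g z‖ ≤ C1 + |B| :=
      (norm_sub_le _ _).trans (add_le_add (hF z (by linarith)) ((hB z hz).trans (le_abs_self B)))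
    have h3 : C1 + |B| ≤ (C1 + |B|) * Real.log (7 + |z.im|) :=
      le_mul_of_one_le_right (by positivity) hlog
    have h4 : 0 ≤ 6 * L / d / d * Real.log (7 + |z.im|) := by positivity
    calc ‖Fz G g z - g z‖ ≤ C1 + |B| := h2
      _ ≤ (C1 + |B|) * Real.log (7 + |z.im|) := h3
      _ ≤ _ := by linarith
  set c : ℂ := ⟨3, z.im⟩ with hc
  set R : ℝ := 3 - θ - d with hR
  have hR0 : 0 < R := by rw [hR]; linarith
  set M : ℝ := L * Real.log (7 + |z.im|) with hM
  have hM0 : 0 < M := by rw [hM]; positivity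
  have hre : ∀ w ∈ ball c R, θ + d < w.re := by
    intro w hw
    rw [mem_ball_iff_norm] at hw
    have h1 := (abs_le.1 (Complex.abs_re_le_norm (w - c))).1
    rw [Complex.sub_re] at h1
    have h2 : c.re = 3 := rfl
    rw [h2] at h1
    linarith
  have hne : ∀ w ∈ ball c R, G w ≠ 0 := fun w hw => hfree w (by have := hre w hw; linarith)
  have hfd : DifferentiableOn ℂ (fun w => deriv G w / G w) (ball c R) := by
    intro w hw
    have d2 : AnalyticAt ℂ G w := h.diff.analyticAt w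
    exact (d2.deriv.differentiableAt.div (h.diff w) (hne w hw)).differentiableWithinAt
  obtain ⟨ℓ, hℓc, hℓ⟩ := (hfd.isExactOn_ball).with_val_at c 0
  have hcmem : c ∈ ball c R := mem_ball_self hR0
  have hexp : ∀ w ∈ ball c R, G w * Complex.exp (-ℓ w) = G c := by
    intro w hw
    have h1 : ∀ v ∈ ball c R, HasDerivAt (fun v => G v * Complex.exp (-ℓ v)) 0 v := by
      intro v hv
      have h2 := (h.diff v).hasDerivAt.mul ((hℓ v hv).neg.cexp)
      refine h2.congr_deriv ?_
      have := hne v hv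
      field_simp
      ring
    have h3 := IsOpen.is_const_of_deriv_eq_zero isOpen_ball (convex_ball c R).isPreconnected
      (fun v hv => (h1 v hv).differentiableAt.differentiableWithinAt)
      (fun v hv => (h1 v hv).deriv) hw hcmem
    simp only [hℓc, neg_zero, Complex.exp_zero, mul_one] at h3
    exact h3
  have hGc : c₀ ≤ ‖G c‖ := hlow c (by show (2 : ℝ) ≤ 3; norm_num)
  have hcn : ‖c‖ ≤ 3 + |z.im| := by
    have := Complex.norm_le_abs_re_add_abs_im c
    have h2 : c.re = 3 := rfl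
    have h3 : c.im = z.im := rfl
    rw [h2, h3, abs_of_pos (by norm_num : (0 : ℝ) < 3)] at this
    exact this
  have hReℓ : ∀ w ∈ ball c R, (ℓ w).re ≤ M := by
    intro w hw
    have h1 := hexp w hw
    have h2 : G w = G c * Complex.exp (ℓ w) := by
      rw [← h1, mul_assoc, ← Complex.exp_add, neg_add_cancel, Complex.exp_zero, mul_one]
    have h3 : ‖G w‖ = ‖G c‖ * Real.exp (ℓ w).re := by
      rw [h2, norm_mul, Complex.norm_exp]
    have h4 := hgro w (hre w hw).le
    have h5 : 1 + ‖w‖ ≤ 7 + |z.im| := by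
      rw [mem_ball_iff_norm] at hw
      have h6 : ‖w‖ ≤ ‖w - c‖ + ‖c‖ := by
        calc ‖w‖ = ‖(w - c) + c‖ := by rw [sub_add_cancel]
          _ ≤ _ := norm_add_le _ _
      linarith
    have h6 : c₀ * Real.exp (ℓ w).re ≤ A * (7 + |z.im|) ^ K := by
      calc c₀ * Real.exp (ℓ w).re ≤ ‖G c‖ * Real.exp (ℓ w).re :=
            mul_le_mul_of_nonneg_right hGc (Real.exp_pos _).le
        _ = ‖G w‖ := h3.symm
        _ ≤ A * (1 + ‖w‖) ^ K := h4
        _ ≤ A * (7 + |z.im|) ^ K := by gcongr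
    have h7 : Real.exp (ℓ w).re ≤ (A / c₀) * (7 + |z.im|) ^ K := by
      rw [div_mul_eq_mul_div, le_div_iff₀ hc₀]
      linarith
    have h8 := Real.log_le_log (Real.exp_pos _) h7
    rw [Real.log_exp, Real.log_mul (by positivity) (by positivity), Real.log_pow] at h8
    refine h8.trans ?_
    rw [hM, hL]
    have h9 := le_abs_self (Real.log (A / c₀))
    have h10 : |Real.log (A / c₀)| ≤ |Real.log (A / c₀)| * Real.log (7 + |z.im|) :=
      le_mul_of_one_le_right (abs_nonneg _) hlog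
    have h11 : 0 ≤ Real.log (7 + |z.im|) := by linarith
    linarith
  have hbc : ∀ w : ℂ, ‖w - c‖ ≤ R - d → ‖ℓ w‖ ≤ 6 * M / d := by
    intro w hw
    have hR3 : R ≤ 3 := by rw [hR]; linarith
    have h1 : ‖(fun ζ : ℂ => ℓ (c + ζ)) (w - c)‖ ≤ 2 * M * ‖w - c‖ / (R - ‖w - c‖) := by
      refine Complex.borelCaratheodory_zero (f := fun ζ : ℂ => ℓ (c + ζ)) (z := w - c) hM0 ?_ ?_
        hR0 ?_ ?_
      · intro ζ hζ
        have h2 : c + ζ ∈ ball c R := by
          rw [mem_ball_iff_norm, add_sub_cancel_left]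
          rwa [mem_ball_zero_iff] at hζ
        exact ((hℓ _ h2).differentiableAt.comp ζ (by fun_prop)).differentiableWithinAt
      · intro ζ hζ
        have h2 : c + ζ ∈ ball c R := by
          rw [mem_ball_iff_norm, add_sub_cancel_left]
          rwa [mem_ball_zero_iff] at hζ
        exact hReℓ _ h2
      · rw [mem_ball_zero_iff]; linarith
      · simp only [add_zero]; exact hℓc
    simp only [add_sub_cancel] at h1
    refine h1.trans ?_
    have h2 : 0 < R - ‖w - c‖ := by linarith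
    have h3 : ‖w - c‖ ≤ 3 := by linarith
    calc 2 * M * ‖w - c‖ / (R - ‖w - c‖) ≤ 2 * M * 3 / d := by
          have := norm_nonneg (w - c)
          gcongr
          linarith
      _ = 6 * M / d := by ring
  have hzc : ‖z - c‖ ≤ R - 2 * d := by
    have h1 : z - c = ((z.re - 3 : ℝ) : ℂ) := by
      apply Complex.ext <;> simp [hc]
    rw [h1, Complex.norm_real, Real.norm_eq_abs, abs_of_nonpos (by linarith), hR, hd]
    linarith
  have hcl : closedBall z d ⊆ ball c R := by
    intro w hw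
    rw [mem_closedBall_iff_norm] at hw
    rw [mem_ball_iff_norm]
    calc ‖w - c‖ = ‖(w - z) + (z - c)‖ := by rw [sub_add_sub_cancel]
      _ ≤ ‖w - z‖ + ‖z - c‖ := norm_add_le _ _
      _ ≤ d + (R - 2 * d) := add_le_add hw hzc
      _ < R := by linarith
  have hz1 : z ∈ ball c R := hcl (mem_closedBall_self hd0.le)
  have hcauchy : ‖deriv ℓ z‖ ≤ 6 * M / d / d := by
    refine Complex.norm_deriv_le_of_forall_mem_sphere_norm_le hd0 ?_ fun w hw => hbc w ?_
    · refine DifferentiableOn.diffContOnCl fun w hw => ?_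
      exact (hℓ w (hcl (closure_ball_subset_closedBall hw))).differentiableAt.differentiableWithinAt
    · rw [mem_sphere_iff_norm] at hw
      calc ‖w - c‖ = ‖(w - z) + (z - c)‖ := by rw [sub_add_sub_cancel]
        _ ≤ ‖w - z‖ + ‖z - c‖ := norm_add_le _ _
        _ ≤ d + (R - 2 * d) := add_le_add hw.le hzc
        _ = R - d := by ring
  rw [(hℓ z hz1).deriv] at hcauchy
  refine hcauchy.trans ?_
  have h5 : 6 * M / d / d = 6 * L / d / d * Real.log (7 + |z.im|) := by rw [hM]; ring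
  rw [h5]
  have h6 : 0 ≤ (C1 + |B|) * Real.log (7 + |z.im|) := by positivity
  linarith

/-! ### The Laplace transform -/

open Pool.Agent.W263.BSD (hh hh_integral hh_integrable hh_norm_integral)

theorem DD_neg {u : ℝ} (hu : u < 0) : DD a u = 0 := by
  unfold DD
  have h1 : ⌊Real.exp u⌋₊ = 0 := by
    refine Nat.floor_eq_zero.2 ?_
    calc Real.exp u < Real.exp 0 := Real.exp_lt_exp.2 hu
      _ = 1 := Real.exp_zero
  rw [h1]
  simp

theorem DD_meas (a : ℕ → ℂ) : Measurable (DD a) := by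
  have e : DD a = (fun n : ℕ => ∑ k ∈ Finset.Icc 1 n, a k) ∘ fun u : ℝ => ⌊Real.exp u⌋₊ := by
    funext u; rfl
  rw [e]
  exact (measurable_from_nat (f := fun n : ℕ => ∑ k ∈ Finset.Icc 1 n, a k)).comp
    (Nat.measurable_floor.comp Real.measurable_exp)

/-- the terms of the Laplace transform -/
def FT (a : ℕ → ℂ) (s : ℂ) (n : ℕ) (u : ℝ) : ℂ := LSeries.term a s n * hh 0 s (u - Real.log n)

theorem FT_tsum (a : ℕ → ℂ) (s : ℂ) (u : ℝ) :
    ∑' n, FT a s n u = DD a u * Complex.exp (-(s * u)) := by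
  have h1 : ∀ n ∉ Finset.Icc 1 ⌊Real.exp u⌋₊, FT a s n u = 0 := by
    intro n hn
    unfold FT
    rcases Nat.eq_zero_or_pos n with h | h
    · rw [h, LSeries.term_zero, zero_mul]
    · have hn0 : (0 : ℝ) < n := by exact_mod_cast h
      have h2 : Real.exp u < n := by
        by_contra hcon
        push Not at hcon
        exact hn (Finset.mem_Icc.2 ⟨h, (Nat.le_floor_iff (Real.exp_pos u).le).2 hcon⟩)
      have h3 : u < Real.log n := by
        have := Real.log_lt_log (Real.exp_pos _) h2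
        rwa [Real.log_exp] at this
      unfold hh
      rw [indicator_of_notMem, mul_zero]
      rw [mem_Ici]
      linarith
  rw [tsum_eq_sum h1]
  unfold DD
  rw [Finset.sum_mul]
  refine Finset.sum_congr rfl fun n hn => ?_
  rw [Finset.mem_Icc] at hn
  have hn0 : (0 : ℝ) < n := by exact_mod_cast hn.1
  have hn1 : n ≠ 0 := by omega
  have h2 : (n : ℝ) ≤ Real.exp u := (Nat.le_floor_iff (Real.exp_pos u).le).1 hn.2
  have h3 : Real.log n ≤ u := by
    have := Real.log_le_log hn0 h2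
    rwa [Real.log_exp] at this
  unfold FT hh
  rw [indicator_of_mem (by rw [mem_Ici]; linarith), LSeries.term_of_ne_zero hn1]
  have h4 : (n : ℂ) ^ s = Complex.exp (s * Real.log n) := by
    rw [Complex.cpow_def_of_ne_zero (by exact_mod_cast hn1), Complex.ofReal_log hn0.le,
      Complex.ofReal_natCast, mul_comm]
  have h5 : Complex.exp (-(s * ((u - Real.log n : ℝ) : ℂ))) =
      Complex.exp (-(s * u)) * Complex.exp (s * Real.log n) := by
    rw [← Complex.exp_add]; congr 1; push_cast; ring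
  rw [h4, h5]
  have h6 := Complex.exp_ne_zero (s * Real.log n)
  simp only [pow_zero, Nat.factorial_zero, Nat.cast_one, div_one, Complex.ofReal_one, one_mul]
  field_simp

theorem LG.laplace (h : LG G g a) {s : ℂ} (hs : 3 / 2 ≤ s.re) :
    ∫ u : ℝ, DD a u * Complex.exp (-(s * u)) = LSeries a s / s := by
  have hs0 : 0 < s.re := by linarith
  have hint : ∀ n, Integrable (FT a s n) := fun n =>
    ((hh_integrable 0 hs0).comp_sub_right _).const_mul _
  have hnorm : ∀ n, ∫ u, ‖FT a s n u‖ = ‖LSeries.term a s n‖ * (1 / s.re ^ (0 + 1)) := by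
    intro n
    unfold FT
    simp only [norm_mul]
    rw [integral_const_mul, integral_sub_right_eq_self (fun v => ‖hh 0 s v‖), hh_norm_integral 0 hs0]
  have hsum : Summable fun n => ∫ u, ‖FT a s n u‖ := by
    simp only [hnorm]
    exact (h.summ hs).1.mul_right _
  have h1 := integral_tsum_of_summable_integral_norm hint hsum
  have h2 : ∀ n, ∫ u, FT a s n u = LSeries.term a s n * (1 / s ^ (0 + 1)) := by
    intro n
    unfold FT
    rw [integral_const_mul, integral_sub_right_eq_self (fun v => hh 0 s v), hh_integral 0 hs0]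
  simp only [FT_tsum, h2] at h1
  rw [← h1, tsum_mul_right]
  unfold LSeries
  rw [zero_add, pow_one, mul_one_div]

/-- the crude bound -/
theorem LG.crude (h : LG G g a) (u : ℝ) :
    ‖DD a u‖ ≤ (∑' n : ℕ, ‖a n‖ * (n : ℝ) ^ (-(3 / 2) : ℝ)) * Real.exp (3 / 2 * u) := by
  set S : ℝ := ∑' n : ℕ, ‖a n‖ * (n : ℝ) ^ (-(3 / 2) : ℝ) with hS
  have h1 : ∑ n ∈ Finset.Icc 1 ⌊Real.exp u⌋₊, ‖a n‖ * (n : ℝ) ^ (-(3 / 2) : ℝ) ≤ S :=
    h.sum.sum_le_tsum _ fun n _ => by positivity
  unfold DD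
  refine (norm_sum_le _ _).trans ?_
  have h2 : ∑ n ∈ Finset.Icc 1 ⌊Real.exp u⌋₊, ‖a n‖ ≤
      ∑ n ∈ Finset.Icc 1 ⌊Real.exp u⌋₊, ‖a n‖ * (n : ℝ) ^ (-(3 / 2) : ℝ) * Real.exp (3 / 2 * u) := by
    refine Finset.sum_le_sum fun n hn => ?_
    rw [Finset.mem_Icc] at hn
    have hn0 : (0 : ℝ) < n := by exact_mod_cast hn.1
    have h3 : (n : ℝ) ≤ Real.exp u := (Nat.le_floor_iff (Real.exp_pos u).le).1 hn.2
    have h4 : (n : ℝ) ^ (3 / 2 : ℝ) ≤ Real.exp (3 / 2 * u) := by
      calc (n : ℝ) ^ (3 / 2 : ℝ) ≤ Real.exp u ^ (3 / 2 : ℝ) :=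
            Real.rpow_le_rpow hn0.le h3 (by norm_num)
        _ = Real.exp (3 / 2 * u) := by rw [← Real.exp_mul]; congr 1; ring
    have h5 : 1 ≤ (n : ℝ) ^ (-(3 / 2) : ℝ) * Real.exp (3 / 2 * u) := by
      rw [Real.rpow_neg hn0.le, inv_mul_eq_div, one_le_div (Real.rpow_pos_of_pos hn0 _)]
      exact h4
    rw [mul_assoc]
    exact le_mul_of_one_le_right (norm_nonneg _) h5
  refine h2.trans ?_
  rw [← Finset.sum_mul]
  exact mul_le_mul_of_nonneg_right h1 (Real.exp_pos _).le

open scoped ENNReal in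
/-- **Square means in a zero free half plane.** -/
theorem LG.sq_int (h : LG G g a) {θ σ : ℝ} (hθ : 0 ≤ θ) (hσ : θ < σ) (hσ2 : σ ≤ 2)
    (hfree : ∀ z : ℂ, θ < z.re → G z ≠ 0) :
    ∃ K : ℝ≥0∞, K ≠ ⊤ ∧ ∫⁻ u : ℝ, ‖DD a u * Complex.exp (-(σ * u))‖ₑ ^ 2 ≤ K := by
  have hσ0 : 0 < σ := by linarith
  obtain ⟨C, hC, hld⟩ := h.ld_log hθ hσ hσ2 hfree
  obtain ⟨B, hB⟩ := h.gb σ hσ0
  set S : ℝ := ∑' n : ℕ, ‖a n‖ * (n : ℝ) ^ (-(3 / 2) : ℝ) with hS
  have hS0 : 0 ≤ S := tsum_nonneg fun n => by positivity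
  set H : ℂ → ℂ := fun s => Fz G g (s + σ) / (s + σ) with hH
  set K₀ : ℝ := (C + |B|) * 28 / (min σ 1 / 2) with hK₀
  have hm : 0 < min σ 1 := lt_min hσ0 one_pos
  have hK₀0 : 0 < K₀ := by rw [hK₀]; positivity
  have hbound : ∀ s : ℂ, 0 < s.re → ‖H s‖ ≤ K₀ * (1 + |s.im|) ^ (-(3 / 4) : ℝ) := by
    intro s hs
    have hre : σ ≤ (s + σ).re := by simp; linarith
    have him : (s + σ).im = s.im := by simp
    have h1 : ‖Fz G g (s + σ)‖ ≤ (C + |B|) * Real.log (7 + |s.im|) := by
      unfold Fz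
      refine (norm_add_le _ _).trans ?_
      rw [add_mul]
      have h2 := hld (s + σ) hre
      rw [him] at h2
      refine add_le_add h2 (((hB _ hre).trans (le_abs_self B)).trans ?_)
      exact le_mul_of_one_le_right (abs_nonneg _) (one_le_log7 _)
    have h2 : Real.log (7 + |s.im|) ≤ 28 * (1 + |s.im|) ^ (1 / 4 : ℝ) := by
      have h3 := Real.log_le_rpow_div (show (0 : ℝ) ≤ 7 + |s.im| by positivity)
        (show (0 : ℝ) < 1 / 4 by norm_num)
      have h4 : (7 + |s.im|) ^ (1 / 4 : ℝ) ≤ (7 * (1 + |s.im|)) ^ (1 / 4 : ℝ) :=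
        Real.rpow_le_rpow (by positivity) (by have := abs_nonneg s.im; linarith) (by norm_num)
      have h5 : (7 * (1 + |s.im|)) ^ (1 / 4 : ℝ) = 7 ^ (1 / 4 : ℝ) * (1 + |s.im|) ^ (1 / 4 : ℝ) :=
        Real.mul_rpow (by norm_num) (by positivity)
      have h6 : (7 : ℝ) ^ (1 / 4 : ℝ) ≤ 7 := by
        calc (7 : ℝ) ^ (1 / 4 : ℝ) ≤ 7 ^ (1 : ℝ) :=
              Real.rpow_le_rpow_of_exponent_le (by norm_num) (by norm_num)
          _ = 7 := Real.rpow_one _
      have h7 : 0 ≤ (1 + |s.im|) ^ (1 / 4 : ℝ) := by positivity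
      have h8 := mul_le_mul_of_nonneg_right h6 h7
      linarith
    have h3 : min σ 1 / 2 * (1 + |s.im|) ≤ ‖s + σ‖ := by
      have h4 : σ ≤ ‖s + σ‖ := hre.trans (Complex.re_le_norm _)
      have h5 : |s.im| ≤ ‖s + σ‖ := by
        have := Complex.abs_im_le_norm (s + σ)
        rwa [him] at this
      have h6 : min σ 1 ≤ σ := min_le_left _ _
      have h7 : min σ 1 * |s.im| ≤ 1 * |s.im| :=
        mul_le_mul_of_nonneg_right (min_le_right _ _) (abs_nonneg _)
      linarith
    have hp : 0 < 1 + |s.im| := by positivity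
    have h4 : 0 < ‖s + σ‖ := lt_of_lt_of_le (by positivity) h3
    rw [hH]
    simp only
    rw [norm_div, div_le_iff₀ h4]
    have h5 : (1 + |s.im|) ^ (-(3 / 4) : ℝ) * (1 + |s.im|) = (1 + |s.im|) ^ (1 / 4 : ℝ) := by
      have : (1 + |s.im|) ^ (-(3 / 4) : ℝ) * (1 + |s.im|) ^ (1 : ℝ) = (1 + |s.im|) ^ (1 / 4 : ℝ) := by
        rw [← Real.rpow_add hp]; norm_num
      rwa [Real.rpow_one] at this
    calc ‖Fz G g (s + σ)‖ ≤ (C + |B|) * Real.log (7 + |s.im|) := h1
      _ ≤ (C + |B|) * (28 * (1 + |s.im|) ^ (1 / 4 : ℝ)) := mul_le_mul_of_nonneg_left h2 (by positivity)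
      _ = K₀ * (1 + |s.im|) ^ (-(3 / 4) : ℝ) * (min σ 1 / 2 * (1 + |s.im|)) := by
          rw [← h5, hK₀]
          field_simp
      _ ≤ K₀ * (1 + |s.im|) ^ (-(3 / 4) : ℝ) * ‖s + σ‖ := mul_le_mul_of_nonneg_left h3 (by positivity)
  -- the function and its transforms
  set k : ℝ → ℂ := fun u => DD a u * Complex.exp (-(σ * u)) with hk
  have hkm : Measurable k := by
    rw [hk]
    exact (DD_meas a).mul (by fun_prop)
  have hkb : ∀ x u : ℝ, 3 / 2 < x → ‖k u * Complex.exp (-(x * u))‖ ≤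
      (Ioi (-1 : ℝ)).indicator (fun u : ℝ => S * Real.exp (-(x + σ - 3 / 2) * u)) u := by
    intro x u hx
    rcases lt_or_ge u 0 with hu | hu
    · have : k u * Complex.exp (-(x * u)) = 0 := by
        rw [hk]; simp only [DD_neg hu, zero_mul]
      rw [this, norm_zero]
      exact indicator_nonneg (fun v _ => by positivity) u
    · rw [indicator_of_mem (by rw [mem_Ioi]; linarith), norm_mul, hk]
      simp only
      rw [norm_mul, Complex.norm_exp, Complex.norm_exp]
      have e1 : (-((σ : ℂ) * (u : ℂ))).re = -(σ * u) := by simp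
      have e2 : (-((x : ℂ) * (u : ℂ))).re = -(x * u) := by simp
      rw [e1, e2]
      have h1 := h.crude u
      rw [← hS] at h1
      calc ‖DD a u‖ * Real.exp (-(σ * u)) * Real.exp (-(x * u))
          ≤ S * Real.exp (3 / 2 * u) * Real.exp (-(σ * u)) * Real.exp (-(x * u)) := by gcongr
        _ = S * Real.exp (-(x + σ - 3 / 2) * u) := by
            rw [mul_assoc, mul_assoc, ← Real.exp_add, ← Real.exp_add]
            congr 2
            ring
  have hexpint : ∀ c : ℝ, 0 < c → Integrable ((Ioi (-1 : ℝ)).indicator fun u : ℝ => Real.exp (-c * u)) := by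
    intro c hc
    rw [integrable_indicator_iff measurableSet_Ioi]
    exact exp_neg_integrableOn_Ioi (-1) hc
  have hmx : ∀ x : ℝ, Measurable fun u : ℝ => k u * Complex.exp (-(x * u)) := fun x =>
    hkm.mul (by fun_prop)
  have hI : ∀ x : ℝ, 3 / 2 < x → Integrable fun u : ℝ => k u * Complex.exp (-(x * u)) := by
    intro x hx
    have h1 := (hexpint (x + σ - 3 / 2) (by linarith)).const_mul S
    refine Integrable.mono' h1 (hmx x).aestronglyMeasurable (Eventually.of_forall fun u => ?_)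
    refine (hkb x u hx).trans (le_of_eq ?_)
    simp only [indicator]
    split_ifs <;> simp
  have hL2 : ∀ x : ℝ, 3 / 2 < x → MemLp (fun u : ℝ => k u * Complex.exp (-(x * u))) 2 := by
    intro x hx
    rw [memLp_two_iff_integrable_sq_norm (hmx x).aestronglyMeasurable]
    have h1 := (hexpint (2 * (x + σ - 3 / 2)) (by linarith)).const_mul (S ^ 2)
    refine Integrable.mono' h1 ((hmx x).norm.pow_const 2).aestronglyMeasurable
      (Eventually.of_forall fun u => ?_)
    rw [Real.norm_eq_abs, abs_of_nonneg (by positivity)]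
    have h2 := pow_le_pow_left₀ (norm_nonneg _) (hkb x u hx) 2
    refine h2.trans (le_of_eq ?_)
    simp only [indicator]
    split_ifs
    · rw [mul_pow, ← Real.exp_nat_mul]
      congr 2
      push_cast
      ring
    · simp
  have hHk : ∀ s : ℂ, 3 / 2 < s.re → H s = ∫ u : ℝ, k u * Complex.exp (-(s * u)) := by
    intro s hs
    have hre : 3 / 2 ≤ (s + σ).re := by simp; linarith
    have h1 := h.laplace hre
    rw [hH]
    simp only
    unfold Fz
    rw [← h.ser _ hre, ← h1]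
    refine integral_congr_ae (Eventually.of_forall fun u => ?_)
    simp only [hk]
    rw [mul_assoc, ← Complex.exp_add]
    congr 2
    ring
  have hHd : ∀ s : ℂ, 0 < s.re → DifferentiableAt ℂ H s := by
    intro s hs
    have hre : σ < (s + σ).re := by simp; linarith
    have h1 : DifferentiableAt ℂ (Fz G g) (s + σ) := by
      unfold Fz
      have d2 : AnalyticAt ℂ G (s + σ) := h.diff.analyticAt _
      exact (d2.deriv.differentiableAt.div (h.diff _) (hfree _ (by linarith))).add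
        (h.gd _ (by linarith))
    have h2 : DifferentiableAt ℂ (fun s : ℂ => s + σ) s := by fun_prop
    have h3 : DifferentiableAt ℂ (fun s : ℂ => Fz G g (s + σ)) s :=
      DifferentiableAt.comp (g := Fz G g) s h1 h2
    refine h3.div h2 ?_
    intro h0
    rw [h0] at hre
    simp at hre
    linarith
  have hdecay : Integrable (fun y : ℝ => (1 + |y|) ^ (-(3 / 2 : ℝ))) :=
    Pool.Agent.TH270.MS.PW.integrable_decay
  refine ⟨∫⁻ t : ℝ, ENNReal.ofReal (K₀ ^ 2 * (1 + |t|) ^ (-(3 / 2 : ℝ))), ?_, ?_⟩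
  · exact (hdecay.const_mul _).lintegral_lt_top.ne
  · refine Pool.Agent.TH270.MS.paley_wiener (k := k) (H := H) (a := 3 / 2) (δ₀ := 1) (by norm_num)
      one_pos hI hL2 hHk hHd ?_ ?_
    · intro δ hδ
      refine ⟨K₀, fun s hs _ => (hbound s (by linarith)).trans ?_⟩
      have h1 : (1 + |s.im|) ^ (-(3 / 4) : ℝ) ≤ 1 :=
        Real.rpow_le_one_of_one_le_of_nonpos (by have := abs_nonneg s.im; linarith) (by norm_num)
      calc K₀ * (1 + |s.im|) ^ (-(3 / 4) : ℝ) ≤ K₀ * 1 := mul_le_mul_of_nonneg_left h1 hK₀0.le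
        _ = K₀ := mul_one _
    · intro δ hδ _
      refine lintegral_mono fun t => ?_
      have h1 := hbound (δ + t * Complex.I) (by simpa using hδ)
      have him : ((δ : ℂ) + t * Complex.I).im = t := by simp
      rw [him] at h1
      have h2 : ‖H (δ + t * Complex.I)‖ ^ 2 ≤ K₀ ^ 2 * (1 + |t|) ^ (-(3 / 2 : ℝ)) := by
        have h3 := pow_le_pow_left₀ (norm_nonneg _) h1 2
        refine h3.trans (le_of_eq ?_)
        have hp : 0 < 1 + |t| := by positivity
        rw [mul_pow, ← Real.rpow_natCast ((1 + |t|) ^ (-(3 / 4) : ℝ)) 2, ← Real.rpow_mul hp.le]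
        norm_num
      rw [← ofReal_norm_eq_enorm, ← ENNReal.ofReal_pow (norm_nonneg _)]
      exact ENNReal.ofReal_le_ofReal h2

end

end Pool.Agent.N739.LW
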