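import Pool.Agent.N739.LW.Asym

/-!
# From the coefficients `a(n) log n` to the coefficients `a(n)`
-/

set_option autoImplicit false

open MeasureTheory Filter Topology Set

namespace Pool.Agent.N739.LW

open Pool.Agent.H295R2 (step)

noncomputable section

variable {f : ℕ → ℂ}

theorem step_one {t : ℝ} (h : 0 ≤ t) : step t = 1 := by
  unfold step; rw [if_pos h]

theorem step_zero {t : ℝ} (h : t < 0) : step t = 0 := by
  unfold step; rw [if_neg (not_le.2 h)]

theorem step_integral0 {y : ℝ} (hy : 0 ≤ y) : ∫ t in (0 : ℝ)..y, step t = (y : ℂ) := by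
  have h1 : ∫ t in (0 : ℝ)..y, step t = ∫ _t in (0 : ℝ)..y, (1 : ℂ) := by
    apply intervalIntegral.integral_congr
    intro t ht
    rw [uIcc_of_le hy] at ht
    exact step_one ht.1
  rw [h1, intervalIntegral.integral_const, sub_zero, Complex.real_smul, mul_one]

theorem step_integral1 {y : ℝ} (hy : y ≤ 0) : ∫ t in y..(0 : ℝ), step t = 0 := by
  rw [intervalIntegral.integral_of_le hy, integral_Ioc_eq_integral_Ioo]
  refine setIntegral_eq_zero_of_forall_eq_zero fun t ht => ?_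
  exact step_zero ht.2

theorem step_integral {L u : ℝ} (hL : 0 ≤ L) (hu : 0 ≤ u) :
    ∫ v in (0 : ℝ)..u, step (v - L) = ((u - L : ℝ) : ℂ) * step (u - L) := by
  rw [intervalIntegral.integral_comp_sub_right (fun t => step t) L, zero_sub]
  have hi : ∀ x y : ℝ, IntervalIntegrable step volume x y := fun x y =>
    Pool.Agent.H295R2.step_nice.intervalIntegrable x y
  rcases le_or_gt 0 (u - L) with h | h
  · rw [← intervalIntegral.integral_add_adjacent_intervals (hi (-L) 0) (hi 0 (u - L)),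
      step_integral0 h, step_integral1 (by linarith), step_one h]
    ring
  · rw [step_zero h, mul_zero]
    have h1 := intervalIntegral.integral_add_adjacent_intervals (hi (-L) (u - L)) (hi (u - L) 0)
    rw [step_integral1 h.le, step_integral1 (by linarith : -L ≤ 0)] at h1
    simpa using h1

theorem DD_log {u : ℝ} (hu : 0 ≤ u) :
    DD (LSeries.logMul f) u = (u : ℂ) * DD f u - ∫ v in (0 : ℝ)..u, DD f v := by
  set N : ℕ := ⌈Real.exp u⌉₊ with hN
  have hN1 : 1 ≤ N := Nat.one_le_iff_ne_zero.2 (by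
    rw [hN]
    exact (Nat.ceil_pos.2 (Real.exp_pos _)).ne')
  have hNlog : u ≤ Real.log N := by
    have h1 : Real.exp u ≤ N := Nat.le_ceil _
    have := Real.log_le_log (Real.exp_pos _) h1
    rwa [Real.log_exp] at this
  have h1 : ∫ v in (0 : ℝ)..u, DD f v = ∫ v in (0 : ℝ)..u, PN f N v := by
    apply intervalIntegral.integral_congr
    intro v hv
    rw [uIcc_of_le hu] at hv
    exact (PN_eq hN1 (hv.2.trans hNlog)).symm
  have h2 : ∫ v in (0 : ℝ)..u, PN f N v =
      ∑ n ∈ Finset.Icc 1 N, f n * (((u - Real.log n : ℝ) : ℂ) * step (u - Real.log n)) := by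
    unfold PN
    have h3 := intervalIntegral.integral_finsetSum (μ := volume) (a := 0) (b := u)
      (s := Finset.Icc 1 N) (f := fun (n : ℕ) (v : ℝ) => f n * step (v - Real.log n))
      (fun n _ => (step_int (Real.log n) 0 u).const_mul _)
    rw [h3]
    refine Finset.sum_congr rfl fun n hn => ?_
    rw [Finset.mem_Icc] at hn
    rw [intervalIntegral.integral_const_mul, step_integral (Real.log_nonneg (by exact_mod_cast hn.1)) hu]
  rw [h1, h2, ← PN_eq hN1 hNlog, ← PN_eq hN1 hNlog]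
  unfold PN
  rw [Finset.mul_sum, ← Finset.sum_sub_distrib]
  refine Finset.sum_congr rfl fun n _ => ?_
  rw [LSeries.logMul, ← Complex.natCast_log]
  push_cast
  ring

/-- passage to the coefficients without the logarithm -/
theorem window_log {U x : ℝ} (hU : 0 ≤ U) (hx : 0 ≤ x) (hx1 : x ≤ 1) (c' : ℂ) :
    ∃ c : ℂ, ∫ u in U..(U + x), ‖DD (LSeries.logMul f) u - c‖ ≤
      (U + 2) * ∫ u in U..(U + x), ‖DD f u - c'‖ := by
  refine ⟨c' * U - ∫ v in (0 : ℝ)..U, DD f v, ?_⟩
  set J : ℝ := ∫ u in U..(U + x), ‖DD f u - c'‖ with hJ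
  have hJ0 : 0 ≤ J := intervalIntegral.integral_nonneg (by linarith) fun u _ => norm_nonneg _
  have hpt : ∀ u ∈ Icc U (U + x), ‖DD (LSeries.logMul f) u - (c' * U - ∫ v in (0 : ℝ)..U, DD f v)‖ ≤
      (U + x) * ‖DD f u - c'‖ + J := by
    intro u hu
    have hu0 : 0 ≤ u := hU.trans hu.1
    have e : DD (LSeries.logMul f) u - (c' * U - ∫ v in (0 : ℝ)..U, DD f v) =
        (u : ℂ) * (DD f u - c') - ∫ v in U..u, (DD f v - c') := by
      rw [DD_log hu0, intervalIntegral.integral_sub (DD_int f U u) intervalIntegrable_const,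
        intervalIntegral.integral_const, Complex.real_smul,
        ← intervalIntegral.integral_add_adjacent_intervals (DD_int f 0 U) (DD_int f U u)]
      push_cast
      ring
    rw [e]
    refine (norm_sub_le _ _).trans (add_le_add ?_ ?_)
    · rw [norm_mul, Complex.norm_real, Real.norm_of_nonneg hu0]
      exact mul_le_mul_of_nonneg_right hu.2 (norm_nonneg _)
    · refine (intervalIntegral.norm_integral_le_integral_norm hu.1).trans ?_
      rw [hJ]
      apply intervalIntegral.integral_mono_interval le_rfl hu.1 hu.2 _ (DDn_int f c' _ _)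
      exact Eventually.of_forall fun v => norm_nonneg _
  calc ∫ u in U..(U + x), ‖DD (LSeries.logMul f) u - (c' * U - ∫ v in (0 : ℝ)..U, DD f v)‖
      ≤ ∫ u in U..(U + x), ((U + x) * ‖DD f u - c'‖ + J) := by
        apply intervalIntegral.integral_mono_on (by linarith) (DDn_int _ _ _ _) _ hpt
        exact ((DDn_int f c' _ _).const_mul _).add intervalIntegrable_const
    _ = (U + x) * J + x * J := by
        rw [intervalIntegral.integral_add ((DDn_int f c' _ _).const_mul _) intervalIntegrable_const,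
          intervalIntegral.integral_const_mul, intervalIntegral.integral_const, smul_eq_mul]
        ring
    _ ≤ (U + 2) * J := by
        rw [← add_mul]
        exact mul_le_mul_of_nonneg_right (by linarith) hJ0

variable {G g : ℂ → ℂ}

theorem LG.asym_log (h : LG G g (LSeries.logMul f)) (hdens : Dens G) {ρ₀ : ℂ} (hz : G ρ₀ = 0)
    (hβ : 0 < ρ₀.re) (hβ2 : ρ₀.re ≤ 1 / 2) {κ : ℝ} (hκ : 0 ≤ κ)
    (hκβ : κ * (1 - ρ₀.re) < ρ₀.re) {ε : ℝ} (hε : 0 < ε) :
    ∀ᶠ U : ℝ in atTop, ∀ c : ℂ,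
      Real.exp ((ρ₀.re - ε) * U) ≤ ∫ u in U..(U + U ^ (-κ) / 2), ‖DD f u - c‖ := by
  have h1 := h.asym hdens hz hβ hβ2 hκ hκβ (half_pos hε)
  have h2 : ∀ᶠ U : ℝ in atTop, U + 2 ≤ Real.exp (ε / 2 * U) := by
    have h3 : Tendsto (fun U : ℝ => Real.exp (ε / 2 * U) / U ^ (1 : ℝ)) atTop atTop :=
      tendsto_exp_mul_div_rpow_atTop 1 (ε / 2) (half_pos hε)
    filter_upwards [h3.eventually_ge_atTop 3, eventually_ge_atTop (1 : ℝ)] with U h4 h5
    rw [Real.rpow_one, le_div_iff₀ (by linarith)] at h4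
    linarith
  filter_upwards [h1, h2, eventually_ge_atTop (1 : ℝ)] with U h4 h5 hU c
  have hU0 : 0 < U := by linarith
  have hk : U ^ (-κ) ≤ 1 := by
    rw [Real.rpow_neg hU0.le]
    exact inv_le_one_of_one_le₀ (Real.one_le_rpow hU hκ)
  have hk0 : 0 < U ^ (-κ) := Real.rpow_pos_of_pos hU0 _
  obtain ⟨c1, h6⟩ := window_log (f := f) hU0.le (x := U ^ (-κ) / 2) (by linarith) (by linarith) c
  have h7 := (h4 c1).trans h6
  have hJ0 : 0 ≤ ∫ u in U..(U + U ^ (-κ) / 2), ‖DD f u - c‖ :=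
    intervalIntegral.integral_nonneg (by linarith) fun u _ => norm_nonneg _
  have h8 : Real.exp ((ρ₀.re - ε / 2) * U) ≤
      Real.exp (ε / 2 * U) * ∫ u in U..(U + U ^ (-κ) / 2), ‖DD f u - c‖ :=
    h7.trans (mul_le_mul_of_nonneg_right h5 hJ0)
  have e : Real.exp ((ρ₀.re - ε / 2) * U) = Real.exp (ε / 2 * U) * Real.exp ((ρ₀.re - ε) * U) := by
    rw [← Real.exp_add]; congr 1; ring
  rw [e] at h8
  exact le_of_mul_le_mul_left h8 (Real.exp_pos _)

/-- the same with a slowly varying comparison function -/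
theorem LG.asym_real (h : LG G g (LSeries.logMul f)) (hdens : Dens G) {ρ₀ : ℂ} (hz : G ρ₀ = 0)
    (hβ : 0 < ρ₀.re) (hβ2 : ρ₀.re ≤ 1 / 2) {κ : ℝ} (hκ : 0 ≤ κ)
    (hκβ : κ * (1 - ρ₀.re) < ρ₀.re) (c₀ ρ : ℝ) {ε : ℝ} (hε : 0 < ε) :
    ∀ᶠ U : ℝ in atTop, Real.exp ((ρ₀.re - ε) * U) ≤
      ∫ u in U..(U + U ^ (-κ) / 2), ‖DD f u - ((c₀ + ρ * Real.log u : ℝ) : ℂ)‖ := by
  set ε' : ℝ := min (ε / 2) (ρ₀.re / 2) with hε'
  have hε'0 : 0 < ε' := lt_min (half_pos hε) (half_pos hβ)
  have h1 := h.asym_log hdens hz hβ hβ2 hκ hκβ hε'0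
  have h2 : ∀ᶠ U : ℝ in atTop, 1 + |ρ| ≤ Real.exp (ε' * U) := by
    have : Tendsto (fun U : ℝ => Real.exp (ε' * U)) atTop atTop :=
      Real.tendsto_exp_atTop.comp (tendsto_id.const_mul_atTop hε'0)
    exact this.eventually_ge_atTop _
  filter_upwards [h1, h2, eventually_ge_atTop (1 : ℝ)] with U h4 h5 hU
  have hU0 : 0 < U := by linarith
  have hk : U ^ (-κ) ≤ 1 := by
    rw [Real.rpow_neg hU0.le]
    exact inv_le_one_of_one_le₀ (Real.one_le_rpow hU hκ)
  have hk0 : 0 < U ^ (-κ) := Real.rpow_pos_of_pos hU0 _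
  set x : ℝ := U ^ (-κ) / 2 with hx
  have hx0 : 0 < x := by rw [hx]; linarith
  have hx1 : x ≤ 1 := by rw [hx]; linarith
  have h6 := h4 (((c₀ + ρ * Real.log U : ℝ) : ℂ))
  have hcont : IntervalIntegrable (fun u : ℝ => ((c₀ + ρ * Real.log u : ℝ) : ℂ)) volume U (U + x) := by
    apply ContinuousOn.intervalIntegrable
    rw [uIcc_of_le (by linarith)]
    intro u hu
    have hu0 : u ≠ 0 := by linarith [hu.1]
    refine ContinuousAt.continuousWithinAt ?_
    refine Complex.continuous_ofReal.continuousAt.comp ?_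
    exact continuousAt_const.add ((Real.continuousAt_log hu0).const_mul _)
  have hint : IntervalIntegrable (fun u : ℝ => ‖DD f u - ((c₀ + ρ * Real.log u : ℝ) : ℂ)‖) volume U (U + x) :=
    ((DD_int f _ _).sub hcont).norm
  have h7 : ∫ u in U..(U + x), ‖DD f u - ((c₀ + ρ * Real.log U : ℝ) : ℂ)‖ ≤
      ∫ u in U..(U + x), (‖DD f u - ((c₀ + ρ * Real.log u : ℝ) : ℂ)‖ + |ρ|) := by
    apply intervalIntegral.integral_mono_on (by linarith) (DDn_int _ _ _ _)
      (hint.add intervalIntegrable_const)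
    intro u hu
    have hu0 : 0 < u := by linarith [hu.1]
    have e : DD f u - ((c₀ + ρ * Real.log U : ℝ) : ℂ) =
        (DD f u - ((c₀ + ρ * Real.log u : ℝ) : ℂ)) + ((ρ * (Real.log u - Real.log U) : ℝ) : ℂ) := by
      push_cast; ring
    rw [e]
    refine (norm_add_le _ _).trans (add_le_add le_rfl ?_)
    rw [Complex.norm_real, Real.norm_eq_abs, abs_mul]
    have h8 : |Real.log u - Real.log U| ≤ 1 := by
      rw [← Real.log_div hu0.ne' hU0.ne', abs_of_nonneg (Real.log_nonneg (by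
        rw [le_div_iff₀ hU0]; linarith [hu.1]))]
      have h9 := Real.log_le_sub_one_of_pos (div_pos hu0 hU0)
      have h10 : u / U ≤ 2 := by
        rw [div_le_iff₀ hU0]; linarith [hu.2]
      linarith
    calc |ρ| * |Real.log u - Real.log U| ≤ |ρ| * 1 := mul_le_mul_of_nonneg_left h8 (abs_nonneg _)
      _ = |ρ| := mul_one _
  rw [intervalIntegral.integral_add hint intervalIntegrable_const, intervalIntegral.integral_const,
    smul_eq_mul, add_sub_cancel_left] at h7
  have h8 : x * |ρ| ≤ |ρ| := by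
    calc x * |ρ| ≤ 1 * |ρ| := mul_le_mul_of_nonneg_right hx1 (abs_nonneg _)
      _ = |ρ| := one_mul _
  have h9 : Real.exp ((ρ₀.re - ε') * U) ≤
      (∫ u in U..(U + x), ‖DD f u - ((c₀ + ρ * Real.log u : ℝ) : ℂ)‖) + |ρ| := by linarith
  have e : Real.exp ((ρ₀.re - ε') * U) = Real.exp (ε' * U) * Real.exp ((ρ₀.re - 2 * ε') * U) := by
    rw [← Real.exp_add]; congr 1; ring
  have h10 : 2 * ε' ≤ ρ₀.re := by
    have := min_le_right (ε / 2) (ρ₀.re / 2)
    rw [← hε'] at this; linarith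
  have h11 : 2 * ε' ≤ ε := by
    have := min_le_left (ε / 2) (ρ₀.re / 2)
    rw [← hε'] at this; linarith
  have h12 : 1 ≤ Real.exp ((ρ₀.re - 2 * ε') * U) := Real.one_le_exp (by
    apply mul_nonneg _ hU0.le; linarith)
  have h13 : Real.exp ((ρ₀.re - ε) * U) ≤ Real.exp ((ρ₀.re - 2 * ε') * U) :=
    Real.exp_le_exp.2 (mul_le_mul_of_nonneg_right (by linarith) hU0.le)
  have h14 : (1 + |ρ|) * Real.exp ((ρ₀.re - 2 * ε') * U) ≤
      Real.exp (ε' * U) * Real.exp ((ρ₀.re - 2 * ε') * U) :=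
    mul_le_mul_of_nonneg_right h5 (Real.exp_pos _).le
  have h15 : |ρ| * 1 ≤ |ρ| * Real.exp ((ρ₀.re - 2 * ε') * U) :=
    mul_le_mul_of_nonneg_left h12 (abs_nonneg _)
  rw [e] at h9
  linarith

end

end Pool.Agent.N739.LW
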