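import Pool.Agent.N739.LW.Perron

/-!
# The key inequality
-/

set_option autoImplicit false

open MeasureTheory Filter Topology Set

namespace Pool.Agent.N739.LW

open Pool.Agent.H295R2 (avg step)
open Pool.Agent.N799.LW (op wt ops)
open H370 (mult)

noncomputable section

theorem PP_le {Z : Finset ℂ} {ρ₀ s : ℂ} {A d : ℝ} (hd : 0 < d)
    (h : ∀ ρ ∈ Z, ‖s - ρ‖ ≤ A ∧ d ≤ ‖ρ₀ - ρ‖) : ‖PP Z ρ₀ s‖ ≤ (A / d) ^ Z.card := by
  unfold PP
  rw [norm_prod, ← Finset.prod_const]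
  apply Finset.prod_le_prod
  · intro ρ _
    positivity
  · intro ρ hρ
    obtain ⟨h1, h2⟩ := h ρ hρ
    have hA : 0 ≤ A := (norm_nonneg _).trans h1
    rw [norm_div]
    gcongr

/-- the multiplier in the strip, at bounded height -/
theorem EE_inner {Z : Finset ℂ} {ρ₀ s : ℂ} {T d δ U : ℝ} {M : ℕ} (hd : 0 < d) (hT : 3 ≤ T) (hδ : 0 < δ)
    (hZ : ∀ ρ ∈ Z, -1 / 2 ≤ ρ.re ∧ ρ.re ≤ 3 / 2 ∧ |ρ.im| ≤ T ∧ d ≤ ‖ρ₀ - ρ‖)
    (h1 : -1 / 2 ≤ s.re) (h2 : s.re ≤ 3 / 2) (h3 : |s.im| ≤ T) (hM : M * δ ≤ 1 / 4) :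
    ‖EE Z ρ₀ δ U M s‖ ≤ (‖1 / ρ₀‖ * (3 * T / d) ^ Z.card) * (5 * Real.exp (s.re * U)) := by
  have e2 : ‖PP Z ρ₀ s‖ ≤ (3 * T / d) ^ Z.card := by
    apply PP_le hd
    intro ρ hρ
    obtain ⟨k1, k2, k3, k4⟩ := hZ ρ hρ
    refine ⟨?_, k4⟩
    have := Complex.norm_le_abs_re_add_abs_im (s - ρ)
    simp only [Complex.sub_re, Complex.sub_im] at this
    have h4 : |s.re - ρ.re| ≤ 2 := by rw [abs_le]; constructor <;> linarith
    have h5 : |s.im - ρ.im| ≤ 2 * T := (abs_sub _ _).trans (by linarith)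
    linarith
  have e3 : ‖ph (s * δ) ^ M‖ ≤ 5 := by
    rw [norm_pow]
    calc ‖ph (s * δ)‖ ^ M ≤ Real.exp (3 / 2 * δ) ^ M := pow_le_pow_left₀ (norm_nonneg _) (ph_le hδ h2) M
      _ = Real.exp (M * (3 / 2 * δ)) := by rw [← Real.exp_nat_mul]
      _ ≤ Real.exp 1 := Real.exp_le_exp.2 (by nlinarith)
      _ ≤ 5 := by linarith [Real.exp_one_lt_d9]
  have e4 : ‖Complex.exp (s * U)‖ = Real.exp (s.re * U) := by
    rw [Complex.norm_exp]; simp
  unfold EE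
  rw [norm_mul, norm_mul, norm_mul, e4]
  calc ‖1 / ρ₀‖ * ‖PP Z ρ₀ s‖ * ‖ph (s * δ) ^ M‖ * Real.exp (s.re * U)
      ≤ ‖1 / ρ₀‖ * (3 * T / d) ^ Z.card * 5 * Real.exp (s.re * U) := by gcongr
    _ = _ := by ring

/-- the multiplier at large height -/
theorem EE_outer {Z : Finset ℂ} {ρ₀ s : ℂ} {T d δ U : ℝ} {M : ℕ} (hd : 0 < d) (hT : 3 ≤ T) (hδ : 0 < δ)
    (hZ : ∀ ρ ∈ Z, -1 / 2 ≤ ρ.re ∧ ρ.re ≤ 3 / 2 ∧ |ρ.im| ≤ T ∧ d ≤ ‖ρ₀ - ρ‖)
    (h1 : -1 / 2 ≤ s.re) (h2 : s.re ≤ 3 / 2) (h3 : T ≤ |s.im|) (hδ1 : δ ≤ 1 / 4) (hTδ : 30 ≤ T * δ)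
    (hMN : Z.card + 2 ≤ M) (hU : 0 ≤ U) (hexp : Real.exp (3 / 2 * U) ≤ 10 ^ M) :
    ‖EE Z ρ₀ δ U M s‖ ≤ (‖1 / ρ₀‖ * (3 * T / d) ^ Z.card) * (T / |s.im|) ^ 2 := by
  set y := |s.im| with hy
  have hy0 : 0 < y := by linarith
  have hT0 : 0 < T := by linarith
  have e2 : ‖PP Z ρ₀ s‖ ≤ (3 * y / d) ^ Z.card := by
    apply PP_le hd
    intro ρ hρ
    obtain ⟨k1, k2, k3, k4⟩ := hZ ρ hρ
    refine ⟨?_, k4⟩
    have := Complex.norm_le_abs_re_add_abs_im (s - ρ)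
    simp only [Complex.sub_re, Complex.sub_im] at this
    have h4 : |s.re - ρ.re| ≤ 2 := by rw [abs_le]; constructor <;> linarith
    have h5 : |s.im - ρ.im| ≤ 2 * y := (abs_sub _ _).trans (by linarith)
    linarith
  have hs0 : s ≠ 0 := by
    rintro rfl
    simp at hy
    linarith
  have e3 : ‖ph (s * δ)‖ ≤ 1 / 10 * (T / y) := by
    have hδ0 : (δ : ℂ) ≠ 0 := by exact_mod_cast hδ.ne'
    refine (ph_far (mul_ne_zero hs0 hδ0)).trans ?_
    have h4 : (s * (δ : ℂ)).re = s.re * δ := by simp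
    have h5 : Real.exp (s.re * δ) ≤ 2 := by
      calc Real.exp (s.re * δ) ≤ Real.exp (1 / 2) := Real.exp_le_exp.2 (by nlinarith)
        _ ≤ 2 := by
          have := Real.exp_one_lt_d9
          have h6 : Real.exp (1 / 2) * Real.exp (1 / 2) = Real.exp 1 := by rw [← Real.exp_add]; norm_num
          nlinarith [Real.exp_pos (1 / 2)]
    rw [h4, norm_mul, Complex.norm_real, Real.norm_of_nonneg hδ.le]
    have h6 : y ≤ ‖s‖ := Complex.abs_im_le_norm s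
    calc (Real.exp (s.re * δ) + 1) / (‖s‖ * δ) ≤ 3 / (y * δ) := by
          gcongr
          linarith
      _ ≤ 1 / 10 * (T / y) := by
          rw [div_le_iff₀ (by positivity)]
          have : 1 / 10 * (T / y) * (y * δ) = T * δ / 10 := by field_simp
          rw [this]
          linarith
  have e4 : ‖Complex.exp (s * U)‖ ≤ 10 ^ M := by
    rw [Complex.norm_exp]
    refine le_trans (Real.exp_le_exp.2 ?_) hexp
    simp
    nlinarith
  obtain ⟨j, hj⟩ := Nat.exists_eq_add_of_le hMN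
  have hTy : T / y ≤ 1 := by rw [div_le_one hy0]; exact h3
  have hTy0 : 0 ≤ T / y := by positivity
  unfold EE
  rw [norm_mul, norm_mul, norm_mul, norm_pow]
  calc ‖1 / ρ₀‖ * ‖PP Z ρ₀ s‖ * ‖ph (s * δ)‖ ^ M * ‖Complex.exp (s * U)‖
      ≤ ‖1 / ρ₀‖ * (3 * y / d) ^ Z.card * (1 / 10 * (T / y)) ^ M * 10 ^ M := by
        gcongr
    _ = (‖1 / ρ₀‖ * (3 * T / d) ^ Z.card) * ((T / y) ^ 2 * (T / y) ^ j) := by
        have a1 : (1 / 10 * (T / y)) ^ M * 10 ^ M = (T / y) ^ M := by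
          rw [← mul_pow]; congr 1; ring
        have a2 : (T / y) ^ M = (T / y) ^ Z.card * ((T / y) ^ 2 * (T / y) ^ j) := by
          rw [hj]; ring
        have a3 : (3 * y / d) ^ Z.card * (T / y) ^ Z.card = (3 * T / d) ^ Z.card := by
          rw [← mul_pow]; congr 1; field_simp
        calc ‖1 / ρ₀‖ * (3 * y / d) ^ Z.card * (1 / 10 * (T / y)) ^ M * 10 ^ M
            = ‖1 / ρ₀‖ * (3 * y / d) ^ Z.card * ((1 / 10 * (T / y)) ^ M * 10 ^ M) := by ring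
          _ = ‖1 / ρ₀‖ * ((3 * y / d) ^ Z.card * (T / y) ^ Z.card) *
                ((T / y) ^ 2 * (T / y) ^ j) := by rw [a1, a2]; ring
          _ = _ := by rw [a3]
    _ ≤ (‖1 / ρ₀‖ * (3 * T / d) ^ Z.card) * ((T / y) ^ 2 * 1) := by
        gcongr
        exact pow_le_one₀ hTy0 hTy
    _ = _ := by rw [mul_one]

/-- `∫_{|y| > T} (T/|y|)² dy = 2T` -/
theorem tail_bound {G : ℝ → ℂ} {T A : ℝ} (hT : 0 < T) (hG : Integrable G)
    (hb : ∀ y : ℝ, T ≤ |y| → ‖G y‖ ≤ A * (T / |y|) ^ 2) :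
    ‖(∫ y : ℝ, G y) - ∫ y in (-T)..T, G y‖ ≤ A * (2 * T) := by
  have hA : 0 ≤ A := by
    have h1 := hb T (le_abs_self T)
    rw [abs_of_pos hT, div_self hT.ne', one_pow, mul_one] at h1
    exact (norm_nonneg _).trans h1
  have e1 : (∫ y : ℝ, G y) = (∫ y in Iic (-T), G y) + ((∫ y in (-T)..T, G y) + ∫ y in Ioi T, G y) := by
    rw [intervalIntegral.integral_of_le (by linarith), ← setIntegral_union (Ioc_disjoint_Ioi_same) measurableSet_Ioi
      hG.integrableOn hG.integrableOn, Ioc_union_Ioi_eq_Ioi (by linarith), ← setIntegral_union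
      (Iic_disjoint_Ioi le_rfl) measurableSet_Ioi hG.integrableOn hG.integrableOn, Iic_union_Ioi, setIntegral_univ]
  have hint : IntegrableOn (fun y : ℝ => A * (T ^ 2 * y ^ (-2 : ℝ))) (Ioi T) :=
    ((integrableOn_Ioi_rpow_of_lt (by norm_num) hT).const_mul _).const_mul _
  have hval : ∫ y in Ioi T, A * (T ^ 2 * y ^ (-2 : ℝ)) = A * T := by
    rw [integral_const_mul, integral_const_mul, integral_Ioi_rpow_of_lt (by norm_num) hT]
    have : T ^ (-2 + 1 : ℝ) = T⁻¹ := by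
      rw [show (-2 + 1 : ℝ) = -1 by norm_num, Real.rpow_neg_one]
    rw [this]
    field_simp
    norm_num
  have hpw : ∀ y : ℝ, T < y → A * (T / |y|) ^ 2 = A * (T ^ 2 * y ^ (-2 : ℝ)) := by
    intro y hy
    have hy0 : 0 < y := by linarith
    rw [abs_of_pos hy0, div_pow, Real.rpow_neg hy0.le]
    norm_num
    left
    rfl
  have h1 : ‖∫ y in Ioi T, G y‖ ≤ A * T := by
    rw [← hval]
    apply norm_integral_le_of_norm_le hint
    filter_upwards [ae_restrict_mem measurableSet_Ioi] with y hy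
    rw [← hpw y hy]
    exact hb y (le_trans (le_of_lt hy) (le_abs_self y))
  have h2 : ‖∫ y in Iic (-T), G y‖ ≤ A * T := by
    have e2 : ∫ y in Iic (-T), G y = ∫ y in Ioi T, G (-y) := by
      rw [← integral_comp_neg_Ioi]
    rw [e2, ← hval]
    apply norm_integral_le_of_norm_le hint
    filter_upwards [ae_restrict_mem measurableSet_Ioi] with y hy
    rw [← hpw y hy]
    have := hb (-y) (by rw [abs_neg]; exact le_trans (le_of_lt hy) (le_abs_self y))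
    rwa [abs_neg] at this
  have e3 : (∫ y : ℝ, G y) - ∫ y in (-T)..T, G y = (∫ y in Iic (-T), G y) + ∫ y in Ioi T, G y := by
    rw [e1]; ring
  rw [e3]
  refine (norm_add_le _ _).trans ?_
  linarith

theorem tail_aux {y : ℝ} (hy : 1 ≤ y) : 1 ≤ 4 * (y ^ 2 / (1 + y) ^ 2) := by
  rw [mul_div_assoc', le_div_iff₀ (by positivity)]
  nlinarith

variable {G g : ℂ → ℂ} {a : ℕ → ℂ}

/-- the zeros to be killed -/
def NZ (G : ℂ → ℂ) (θ T : ℝ) : Set ℂ := {s | G s = 0 ∧ θ < s.re ∧ |s.im| < T}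

theorem LG.NZ_fin (h : LG G g a) {θ : ℝ} (hθ : 0 < θ) (T : ℝ) : (NZ G θ T).Finite := by
  refine (h.fin hθ T).subset ?_
  rintro s ⟨h1, h2, h3⟩
  exact ⟨h1, h2.le, h3.le⟩

theorem LG.key (h : LG G g a) {ρ₀ : ℂ} {θ : ℝ} (hz : G ρ₀ = 0) (hθ : 0 < θ) (hρ : θ < ρ₀.re) :
    ∃ C : ℝ, 1 ≤ C ∧ ∀ T1 : ℝ, C ≤ T1 → ∃ T ∈ Icc T1 (T1 + 1),
      ∀ (U δ : ℝ) (M : ℕ), 0 ≤ U → 0 < δ → C * (M * δ) ≤ 1 → 30 ≤ T1 * δ →
      (NZ G θ T).ncard + 4 ≤ M → Real.exp (3 / 2 * U) ≤ 10 ^ M → ∀ c : ℂ,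
      Real.exp (ρ₀.re * U) ≤ C * T ^ 6 * (C * T) ^ ((NZ G θ T).ncard) *
        ((∫ u in U..(U + M * δ), ‖DD a u - c‖) + Real.exp (θ * U)) := by
  classical
  obtain ⟨d, hd, hiso⟩ := h.isol ρ₀
  have hre1 : ρ₀.re < 1 := h.re_lt hz
  obtain ⟨C0, hC0, hrect⟩ := h.rect_main (η := θ / 2) (by linarith) (by linarith)
  obtain ⟨C3, hC3, hld⟩ := h.Fz_bound
  have hre0 : 0 < ρ₀.re := lt_trans hθ hρ
  have hρ0 : ρ₀ ≠ 0 := by rintro rfl; simp at hre0
  set c0 : ℝ := ‖1 / ρ₀‖ with hc0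
  have hc00 : 0 ≤ c0 := norm_nonneg _
  set C : ℝ := 4 + |ρ₀.im| + 2 * ‖ρ₀‖ + 3 / d + 2 * (1 + 2 * C3 + 10 * C0) with hC
  have hn0 : 0 < ‖ρ₀‖ := norm_pos_iff.2 hρ0
  have hnc : ‖ρ₀‖ * c0 = 1 := by
    rw [hc0, norm_div, norm_one, mul_one_div, div_self hn0.ne']
  have him0 : 0 ≤ |ρ₀.im| := abs_nonneg _
  have hd3 : 0 < 3 / d := by positivity
  have hlast : 0 ≤ 2 * (1 + 2 * C3 + 10 * C0) := by positivity
  have hC4 : 4 ≤ C := by linarith
  refine ⟨C, by linarith, fun T1 hT1 => ?_⟩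
  obtain ⟨T, hT, σ, hσ, hfin, hcount, hmain⟩ := hrect T1 (by linarith)
  have hT3 : 4 ≤ T := by linarith [hT.1]
  have hT0 : 0 < T := by linarith
  have hσθ : σ ≤ θ := by linarith [hσ.2]
  have hσ0 : 0 < σ := by linarith [hσ.1]
  refine ⟨T, hT, fun U δ M hU hδ hMδ hTδ hcard hexp c => ?_⟩
  have hNZfin := h.NZ_fin hθ T
  set Z : Finset ℂ := hfin.toFinset.filter (fun ρ => θ < ρ.re ∧ ρ ≠ ρ₀) with hZ
  have hZcard : Z.card ≤ (NZ G θ T).ncard := by
    rw [← Set.ncard_coe_finset]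
    apply Set.ncard_le_ncard _ hNZfin
    intro ρ hρ'
    rw [Finset.mem_coe, hZ, Finset.mem_filter, Set.Finite.mem_toFinset] at hρ'
    obtain ⟨k1, k2, k3, k4⟩ := RZ_mem h hρ'.1
    exact ⟨k1, hρ'.2.1, k4⟩
  have hM1 : 1 ≤ M := by omega
  have hMδ0 : 0 ≤ M * δ := by positivity
  have hMδ4 : M * δ ≤ 1 / 4 := by
    have := mul_le_mul_of_nonneg_right hC4 hMδ0
    linarith
  have hCρ : 2 * ‖ρ₀‖ ≤ C := by linarith
  have hMδρ : M * δ * ‖ρ₀‖ ≤ 1 / 2 := by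
    have := mul_le_mul_of_nonneg_right hCρ hMδ0
    linarith
  have hδM : δ ≤ M * δ := by
    have : (1 : ℝ) ≤ M := by exact_mod_cast hM1
    exact le_mul_of_one_le_left hδ.le this
  have hδ4 : δ ≤ 1 / 4 := by linarith
  have hTδ' : 30 ≤ T * δ := hTδ.trans (mul_le_mul_of_nonneg_right hT.1 hδ.le)
  have hZp : ∀ ρ ∈ Z, -1 / 2 ≤ ρ.re ∧ ρ.re ≤ 3 / 2 ∧ |ρ.im| ≤ T ∧ d ≤ ‖ρ₀ - ρ‖ := by
    intro ρ hρ'
    rw [hZ, Finset.mem_filter, Set.Finite.mem_toFinset] at hρ'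
    obtain ⟨k1, k2, k3, k4⟩ := RZ_mem h hρ'.1
    exact ⟨by linarith, by linarith, k4.le, hiso ρ k1 hρ'.2.2⟩
  set W : ℝ := c0 * (3 * T / d) ^ Z.card with hW
  have hW0 : 0 ≤ W := by positivity
  have hinner : ∀ s : ℂ, -1 / 2 ≤ s.re → s.re ≤ 3 / 2 → |s.im| ≤ T →
      ‖EE Z ρ₀ δ U M s‖ ≤ W * (5 * Real.exp (s.re * U)) := fun s h1 h2 h3 =>
    EE_inner hd (by linarith) hδ hZp h1 h2 h3 hMδ4
  have houter : ∀ s : ℂ, -1 / 2 ≤ s.re → s.re ≤ 3 / 2 → T ≤ |s.im| →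
      ‖EE Z ρ₀ δ U M s‖ ≤ W * (T / |s.im|) ^ 2 := fun s h1 h2 h3 =>
    EE_outer hd (by linarith) hδ hZp h1 h2 h3 hδ4 hTδ' (by omega) hU hexp
  have hexp1 : 1 ≤ Real.exp (θ * U) := Real.one_le_exp (by positivity)
  have hW5 : W * 1 ≤ 5 * W * Real.exp (θ * U) := by
    have h1 : W * 1 ≤ W * Real.exp (θ * U) := mul_le_mul_of_nonneg_left hexp1 hW0
    have h2 : 0 ≤ W * Real.exp (θ * U) := by positivity
    have h3 : 5 * W * Real.exp (θ * U) = 5 * (W * Real.exp (θ * U)) := by ring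
    rw [h3]
    linarith
  -- the rectangle
  have hr := hmain (EE Z ρ₀ δ U M) (5 * W * Real.exp (θ * U)) (EE_diff _ _ _ _ _)
    (fun x hx => by
      refine (houter ⟨x, T⟩ (by simp only; linarith [hx.1]) hx.2 (le_abs_self T)).trans ?_
      simp only
      rw [abs_of_pos hT0, div_self hT0.ne', one_pow]
      exact hW5)
    (fun x hx => by
      refine (houter ⟨x, -T⟩ (by simp only; linarith [hx.1]) hx.2
        (by simp only [abs_neg]; exact le_abs_self T)).trans ?_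
      simp only
      rw [abs_neg, abs_of_pos hT0, div_self hT0.ne', one_pow]
      exact hW5)
    (fun y hy => by
      refine (hinner ⟨σ, y⟩ (by simp only; linarith) (by simp only; linarith) (abs_le.2 hy)).trans ?_
      have h1 : Real.exp (σ * U) ≤ Real.exp (θ * U) := Real.exp_le_exp.2 (mul_le_mul_of_nonneg_right hσθ hU)
      have h2 := mul_le_mul_of_nonneg_left h1 hW0
      simp only
      have h3 : 5 * W * Real.exp (θ * U) = 5 * (W * Real.exp (θ * U)) := by ring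
      have h4 : W * (5 * Real.exp (σ * U)) = 5 * (W * Real.exp (σ * U)) := by ring
      rw [h3, h4]
      linarith)
  -- the sum over zeros
  have hsumfin : ∑ᶠ s ∈ RZ G σ T, (mult G s : ℂ) * EE Z ρ₀ δ U M s =
      ∑ s ∈ hfin.toFinset, (mult G s : ℂ) * EE Z ρ₀ δ U M s :=
    finsum_mem_eq_finite_toFinset_sum _ hfin
  have hcount2 : ∑ s ∈ hfin.toFinset, (mult G s : ℝ) ≤ C0 * T ^ 6 := by
    have e : ∑ᶠ s ∈ RZ G σ T, (mult G s : ℂ) = ((∑ s ∈ hfin.toFinset, (mult G s : ℝ) : ℝ) : ℂ) := by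
      rw [finsum_mem_eq_finite_toFinset_sum _ hfin]
      push_cast
      rfl
    rw [e, Complex.norm_real] at hcount
    exact (le_abs_self _).trans hcount
  have hρmem : ρ₀ ∈ hfin.toFinset := by
    rw [Set.Finite.mem_toFinset]
    refine ⟨⟨⟨by linarith, by linarith⟩, ?_⟩, hz⟩
    have h1 : |ρ₀.im| < T := by linarith [hT.1]
    exact abs_lt.1 h1
  have hsplit := Finset.add_sum_erase hfin.toFinset (fun s => (mult G s : ℂ) * EE Z ρ₀ δ U M s) hρmem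
  have hrest : ‖∑ s ∈ hfin.toFinset.erase ρ₀, (mult G s : ℂ) * EE Z ρ₀ δ U M s‖ ≤
      C0 * T ^ 6 * (W * (5 * Real.exp (θ * U))) := by
    refine (norm_sum_le _ _).trans ?_
    calc ∑ s ∈ hfin.toFinset.erase ρ₀, ‖(mult G s : ℂ) * EE Z ρ₀ δ U M s‖
        ≤ ∑ s ∈ hfin.toFinset.erase ρ₀, (mult G s : ℝ) * (W * (5 * Real.exp (θ * U))) := by
          apply Finset.sum_le_sum
          intro s hs
          rw [Finset.mem_erase, Set.Finite.mem_toFinset] at hs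
          obtain ⟨k1, k2, k3, k4⟩ := RZ_mem h hs.2
          rw [norm_mul, Complex.norm_natCast]
          apply mul_le_mul_of_nonneg_left _ (Nat.cast_nonneg _)
          rcases lt_or_ge θ s.re with hc | hc
          · have hsZ : s ∈ Z := by
              rw [hZ, Finset.mem_filter, Set.Finite.mem_toFinset]
              exact ⟨hs.2, hc, hs.1⟩
            have : PP Z ρ₀ s = 0 := by
              unfold PP
              apply Finset.prod_eq_zero hsZ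
              rw [sub_self, zero_div]
            unfold EE
            rw [this]
            simp
            positivity
          · refine (hinner s (by linarith) (by linarith) k4.le).trans ?_
            have h1 : Real.exp (s.re * U) ≤ Real.exp (θ * U) :=
              Real.exp_le_exp.2 (mul_le_mul_of_nonneg_right hc hU)
            exact mul_le_mul_of_nonneg_left (mul_le_mul_of_nonneg_left h1 (by norm_num)) hW0
      _ ≤ ∑ s ∈ hfin.toFinset, (mult G s : ℝ) * (W * (5 * Real.exp (θ * U))) := by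
          apply Finset.sum_le_sum_of_subset_of_nonneg (Finset.erase_subset _ _)
          intro s _ _
          positivity
      _ = (∑ s ∈ hfin.toFinset, (mult G s : ℝ)) * (W * (5 * Real.exp (θ * U))) := by rw [Finset.sum_mul]
      _ ≤ _ := by gcongr
  -- the main term
  have hmainterm : Real.exp (ρ₀.re * U) / (2 * ‖ρ₀‖) ≤ ‖(mult G ρ₀ : ℂ) * EE Z ρ₀ δ U M ρ₀‖ := by
    have hPP : PP Z ρ₀ ρ₀ = 1 := by
      unfold PP
      apply Finset.prod_eq_one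
      intro ρ hρ'
      rw [hZ, Finset.mem_filter] at hρ'
      exact div_self (sub_ne_zero.2 hρ'.2.2.symm)
    have hEE : EE Z ρ₀ δ U M ρ₀ = 1 / ρ₀ * ph (ρ₀ * δ) ^ M * Complex.exp (ρ₀ * U) := by
      unfold EE
      rw [hPP, mul_one]
    have hnear : 1 / 2 ≤ ‖ph (ρ₀ * δ) ^ M‖ := by
      rw [norm_pow]
      have h1 : ‖ρ₀ * (δ : ℂ)‖ = ‖ρ₀‖ * δ := by
        rw [norm_mul, Complex.norm_real, Real.norm_of_nonneg hδ.le]
      have h2 : ‖ρ₀‖ * δ ≤ 1 / 2 := by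
        have := mul_le_mul_of_nonneg_left hδM hn0.le
        linarith
      have h3 := ph_near (z := ρ₀ * δ) (by rw [h1]; linarith)
      rw [h1] at h3
      have h4 := one_add_mul_le_pow (a := -(‖ρ₀‖ * δ)) (by linarith) M
      calc (1 : ℝ) / 2 ≤ 1 + M * -(‖ρ₀‖ * δ) := by
            have e : (M : ℝ) * -(‖ρ₀‖ * δ) = -(M * δ * ‖ρ₀‖) := by ring
            rw [e]
            linarith
        _ ≤ (1 + -(‖ρ₀‖ * δ)) ^ M := h4
        _ ≤ ‖ph (ρ₀ * δ)‖ ^ M := pow_le_pow_left₀ (by linarith) (by linarith) M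
    have hmu : (1 : ℝ) ≤ mult G ρ₀ := by exact_mod_cast h.mult_ge hz
    rw [hEE, norm_mul, norm_mul, norm_mul, norm_div, norm_one, Complex.norm_natCast, Complex.norm_exp]
    have h5 : (ρ₀ * (U : ℂ)).re = ρ₀.re * U := by simp
    rw [h5]
    calc Real.exp (ρ₀.re * U) / (2 * ‖ρ₀‖) = 1 * (1 / ‖ρ₀‖ * (1 / 2) * Real.exp (ρ₀.re * U)) := by
          field_simp
      _ ≤ _ := by gcongr
  -- the integral over the whole line
  obtain ⟨m, hm⟩ := Nat.exists_eq_add_of_le (show Z.card + 4 ≤ M by omega)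
  have hm' : Z.card + m + 4 = M := by omega
  set N : ℕ := ⌈Real.exp (U + M * δ)⌉₊ with hN
  have hN1 : 1 ≤ N := Nat.one_le_iff_ne_zero.2 (by
    rw [hN]
    exact (Nat.ceil_pos.2 (Real.exp_pos _)).ne')
  have hNlog : U + M * δ ≤ Real.log N := by
    have h1 : Real.exp (U + M * δ) ≤ N := Nat.le_ceil _
    have := Real.log_le_log (Real.exp_pos _) h1
    rwa [Real.log_exp] at this
  have hP := h.perron_H Z ρ₀ m hδ (by linarith) (U := U) (N := N) hN1 (by rw [hm']; exact hNlog)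
  rw [hm'] at hP
  set H : ℝ → ℂ := fun y => Fz G g (((3 / 2 : ℝ) : ℂ) + y * Complex.I) *
    EE Z ρ₀ δ U M (((3 / 2 : ℝ) : ℂ) + y * Complex.I) with hH
  have hre : ∀ y : ℝ, (((3 / 2 : ℝ) : ℂ) + y * Complex.I).re = 3 / 2 := by intro y; simp
  have him : ∀ y : ℝ, (((3 / 2 : ℝ) : ℂ) + y * Complex.I).im = y := by intro y; simp
  have hGb : ∀ y : ℝ, T ≤ |y| → ‖H y‖ ≤ (C3 * W) * (T / |y|) ^ 2 := by
    intro y hy
    rw [hH]
    simp only
    rw [norm_mul]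
    have h1 := hld (((3 / 2 : ℝ) : ℂ) + y * Complex.I) (hre y).ge
    have h2 := houter (((3 / 2 : ℝ) : ℂ) + y * Complex.I) (by rw [hre]; norm_num) (hre y).le
      (by rw [him]; exact hy)
    rw [him] at h2
    calc _ ≤ C3 * (W * (T / |y|) ^ 2) := by gcongr
      _ = _ := by ring
  have hGint : Integrable H := by
    refine Pool.Agent.H295R2.vertical_integrable (H := fun s => Fz G g s * EE Z ρ₀ δ U M s) (a := 3 / 2)
      (B := (C3 * W) * (4 * T ^ 2) + (C3 * (W * (5 * Real.exp (3 / 2 * U)))) * (1 + T) ^ 2) ?_ ?_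
    · intro s hs
      exact (h.Fz_diff hs.ge).continuousAt.mul (EE_diff _ _ _ _ _).continuous.continuousAt
    · intro s hs
      rw [norm_mul]
      have h1 := hld s hs.ge
      have ha := abs_nonneg s.im
      have hrp : (1 + |s.im|) ^ (-2 : ℝ) ≤ (1 + |s.im|) ^ (-(3 / 2) : ℝ) :=
        Real.rpow_le_rpow_of_exponent_le (by linarith) (by norm_num)
      have hrp2 : (1 + |s.im|) ^ (-2 : ℝ) = ((1 + |s.im|) ^ 2)⁻¹ := by
        rw [Real.rpow_neg (by positivity)]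
        norm_num
      have hrp0 : 0 ≤ (1 + |s.im|) ^ (-(3 / 2) : ℝ) := by positivity
      rw [hrp2] at hrp
      rcases le_or_gt T |s.im| with hy | hy
      · have h2 := houter s (by rw [hs]; norm_num) hs.le hy
        have hy0 : 0 < |s.im| := by linarith
        have h3 : (T / |s.im|) ^ 2 ≤ 4 * T ^ 2 * ((1 + |s.im|) ^ 2)⁻¹ := by
          rw [div_pow, div_le_iff₀ (by positivity), mul_assoc, ← div_eq_inv_mul]
          have h5 : 1 ≤ 4 * (|s.im| ^ 2 / (1 + |s.im|) ^ 2) := tail_aux (by linarith)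
          have h6 := mul_le_mul_of_nonneg_left h5 (sq_nonneg T)
          linarith
        calc ‖Fz G g s‖ * ‖EE Z ρ₀ δ U M s‖ ≤ C3 * (W * (4 * T ^ 2 * ((1 + |s.im|) ^ 2)⁻¹)) := by
              apply mul_le_mul h1 (h2.trans (by gcongr)) (norm_nonneg _) hC3.le
          _ ≤ C3 * (W * (4 * T ^ 2 * (1 + |s.im|) ^ (-(3 / 2) : ℝ))) := by gcongr
          _ = (C3 * W) * (4 * T ^ 2) * (1 + |s.im|) ^ (-(3 / 2) : ℝ) := by ring
          _ ≤ _ := by
              apply mul_le_mul_of_nonneg_right _ hrp0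
              have : 0 ≤ (C3 * (W * (5 * Real.exp (3 / 2 * U)))) * (1 + T) ^ 2 := by positivity
              linarith
      · have h2 := hinner s (by rw [hs]; norm_num) hs.le hy.le
        rw [hs] at h2
        have h3 : 1 ≤ (1 + T) ^ 2 * ((1 + |s.im|) ^ 2)⁻¹ := by
          rw [← div_eq_mul_inv, le_div_iff₀ (by positivity), one_mul]
          exact pow_le_pow_left₀ (by linarith) (by linarith) 2
        calc ‖Fz G g s‖ * ‖EE Z ρ₀ δ U M s‖ ≤ C3 * (W * (5 * Real.exp (3 / 2 * U))) := by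
              apply mul_le_mul h1 h2 (norm_nonneg _) hC3.le
          _ = C3 * (W * (5 * Real.exp (3 / 2 * U))) * 1 := by ring
          _ ≤ C3 * (W * (5 * Real.exp (3 / 2 * U))) * ((1 + T) ^ 2 * ((1 + |s.im|) ^ 2)⁻¹) := by gcongr
          _ ≤ C3 * (W * (5 * Real.exp (3 / 2 * U))) * ((1 + T) ^ 2 * (1 + |s.im|) ^ (-(3 / 2) : ℝ)) := by
              gcongr
          _ = (C3 * (W * (5 * Real.exp (3 / 2 * U)))) * (1 + T) ^ 2 * (1 + |s.im|) ^ (-(3 / 2) : ℝ) := by ring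
          _ ≤ _ := by
              apply mul_le_mul_of_nonneg_right _ hrp0
              have : 0 ≤ (C3 * W) * (4 * T ^ 2) := by positivity
              linarith
  have htail := tail_bound hT0 hGint hGb
  have hGseg : ∫ y in (-T)..T, H y = ∫ y in (-T)..T, Fz G g ⟨3 / 2, y⟩ * EE Z ρ₀ δ U M ⟨3 / 2, y⟩ := by
    apply intervalIntegral.integral_congr
    intro y _
    simp only [hH]
    have : (((3 / 2 : ℝ) : ℂ) + y * Complex.I) = ⟨3 / 2, y⟩ := by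
      rw [← Complex.mk_eq_add_mul_I]
    rw [this]
  rw [← hGseg] at hr
  -- the arithmetic side
  set J : ℝ := ∫ u in U..(U + M * δ), ‖DD a u - c‖ with hJ
  have hHb := H_bound (a := a) hδ (lst Z ρ₀ m) (1 / ρ₀) c (U := U) (S := 1 / δ * J) hN1
    (by
      rw [lst_length]
      have : ((Z.card + m : ℕ) : ℝ) + 4 = M := by rw [← hm']; push_cast; ring
      rw [this]
      exact hNlog)
    (by
      intro u hu
      rw [lst_length] at hu
      have e : δ * (1 / δ * J) = J := by field_simp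
      rw [e, hJ]
      apply intervalIntegral.integral_mono_interval hu.1 (by linarith) _ _ (DDn_int a c _ _)
      · have h1 := hu.2
        have : ((Z.card + m : ℕ) : ℝ) + 3 + 1 = M := by rw [← hm']; push_cast; ring
        rw [← this]
        linarith
      · exact Eventually.of_forall fun u => norm_nonneg _)
  have hkk : kk Z ρ₀ m δ = ops δ (lst Z ρ₀ m) (op δ (1 / ρ₀, 0) (avg δ step)) := rfl
  rw [← hkk, hP, lst_wt Z ρ₀ m δ, wt_one] at hHb
  have hJ0 : 0 ≤ J := intervalIntegral.integral_nonneg (by linarith) fun u _ => norm_nonneg _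
  have hδinv : 1 / δ ≤ T / 30 := by
    rw [div_le_div_iff₀ hδ (by norm_num)]
    linarith
  have hδinv0 : 0 ≤ 1 / δ := by positivity
  have h2δ : 2 / δ = 2 * (1 / δ) := by ring
  have hprod : ∏ ρ ∈ Z, ((2 / δ + ‖ρ‖) / ‖ρ₀ - ρ‖) ≤ (3 * T / d) ^ Z.card := by
    rw [← Finset.prod_const]
    apply Finset.prod_le_prod
    · intro ρ _
      positivity
    · intro ρ hρ'
      obtain ⟨k1, k2, k3, k4⟩ := hZp ρ hρ'
      have h5 : ‖ρ‖ ≤ 3 / 2 + T := by
        refine (Complex.norm_le_abs_re_add_abs_im ρ).trans (add_le_add ?_ k3)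
        rw [abs_le]; constructor <;> linarith
      have h6 : 2 / δ + ‖ρ‖ ≤ 3 * T := by rw [h2δ]; linarith
      gcongr
  have hHH : (∏ ρ ∈ Z, ((2 / δ + ‖ρ‖) / ‖ρ₀ - ρ‖)) *
      (2 / (δ * ‖ρ₀‖) * (1 / δ * J)) ≤ W * T ^ 6 * J := by
    have h8 : c0 = 1 / ‖ρ₀‖ := by
      rw [hc0, norm_div, norm_one]
    have hprod0 : 0 ≤ ∏ ρ ∈ Z, ((2 / δ + ‖ρ‖) / ‖ρ₀ - ρ‖) := Finset.prod_nonneg fun ρ _ => by positivity
    calc (∏ ρ ∈ Z, ((2 / δ + ‖ρ‖) / ‖ρ₀ - ρ‖)) * (2 / (δ * ‖ρ₀‖) * (1 / δ * J))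
        = c0 * (∏ ρ ∈ Z, ((2 / δ + ‖ρ‖) / ‖ρ₀ - ρ‖)) * ((2 * (1 / δ)) * (1 / δ)) * J := by
          rw [h8]; field_simp
      _ ≤ c0 * (3 * T / d) ^ Z.card * ((2 * (T / 30)) * (T / 30)) * J := by gcongr
      _ ≤ c0 * (3 * T / d) ^ Z.card * (T ^ 6) * J := by
          have h9 : (2 * (T / 30)) * (T / 30) ≤ T ^ 6 := by
            have h10 : T ^ 2 ≤ T ^ 6 := pow_le_pow_right₀ (by linarith) (by norm_num)
            have h11 : 0 ≤ T ^ 2 := by positivity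
            have e : (2 * (T / 30)) * (T / 30) = 2 / 900 * T ^ 2 := by ring
            rw [e]
            linarith
          exact mul_le_mul_of_nonneg_right (mul_le_mul_of_nonneg_left h9 (by positivity)) hJ0
      _ = W * T ^ 6 * J := by rw [hW]
  have hGn : ‖∫ y : ℝ, H y‖ = 2 * Real.pi * ‖((2 * Real.pi)⁻¹ : ℂ) * ∫ y : ℝ, H y‖ := by
    rw [norm_mul, norm_inv, norm_mul, Complex.norm_real, Complex.norm_ofNat,
      Real.norm_of_nonneg Real.pi_pos.le, ← mul_assoc, mul_inv_cancel₀ (by positivity), one_mul]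
  set Sg : ℂ := ∑ᶠ s ∈ RZ G σ T, (mult G s : ℂ) * EE Z ρ₀ δ U M s with hSg
  have hpi3 := Real.pi_gt_three
  set x := Real.exp (θ * U) with hx
  have f1 : ‖(2 : ℂ) * Real.pi * Sg‖ ≤ ‖∫ y : ℝ, H y‖ + C3 * W * (2 * T) + C0 * T ^ 6 * (5 * W * x) := by
    have e : (2 : ℂ) * Real.pi * Sg = (∫ y : ℝ, H y) - ((∫ y : ℝ, H y) - ∫ y in (-T)..T, H y) -
        ((∫ y in (-T)..T, H y) - 2 * Real.pi * Sg) := by ring
    rw [e]
    refine (norm_sub_le _ _).trans (add_le_add ((norm_sub_le _ _).trans (add_le_add le_rfl htail)) hr)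
  have f2 : ‖(2 : ℂ) * Real.pi * Sg‖ = 2 * Real.pi * ‖Sg‖ := by
    rw [norm_mul, norm_mul, Complex.norm_real, Complex.norm_ofNat, Real.norm_of_nonneg Real.pi_pos.le]
  have f3 : ‖Sg‖ ≤ W * T ^ 6 * J + (C3 * W * (2 * T) + C0 * T ^ 6 * (5 * W * x)) := by
    rw [f2, hGn] at f1
    have f4 : 2 * Real.pi * ‖((2 * Real.pi)⁻¹ : ℂ) * ∫ y : ℝ, H y‖ ≤ 2 * Real.pi * (W * T ^ 6 * J) := by
      gcongr
      exact hHb.trans hHH
    have f5 : 0 ≤ C3 * W * (2 * T) + C0 * T ^ 6 * (5 * W * x) := by positivity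
    have f6 : C3 * W * (2 * T) + C0 * T ^ 6 * (5 * W * x) ≤
        2 * Real.pi * (C3 * W * (2 * T) + C0 * T ^ 6 * (5 * W * x)) :=
      le_mul_of_one_le_left f5 (by linarith)
    have f7 : 2 * Real.pi * ‖Sg‖ ≤
        2 * Real.pi * (W * T ^ 6 * J + (C3 * W * (2 * T) + C0 * T ^ 6 * (5 * W * x))) := by
      rw [mul_add]; linarith
    exact le_of_mul_le_mul_left f7 (by positivity)
  have f8 : ‖(mult G ρ₀ : ℂ) * EE Z ρ₀ δ U M ρ₀‖ ≤ ‖Sg‖ + C0 * T ^ 6 * (W * (5 * x)) := by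
    have e : (mult G ρ₀ : ℂ) * EE Z ρ₀ δ U M ρ₀ = Sg -
        ∑ s ∈ hfin.toFinset.erase ρ₀, (mult G s : ℂ) * EE Z ρ₀ δ U M s := by
      rw [hsumfin, ← hsplit]; ring
    rw [e]
    exact (norm_sub_le _ _).trans (add_le_add le_rfl hrest)
  have hTT : T ≤ T ^ 6 := le_self_pow₀ (by linarith) (by norm_num)
  have f9 : Real.exp (ρ₀.re * U) / (2 * ‖ρ₀‖) ≤ W * T ^ 6 * ((1 + 2 * C3 + 10 * C0) * (J + x)) := by
    have g1 : C3 * W * (2 * T) ≤ W * T ^ 6 * (2 * C3 * x) := by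
      calc C3 * W * (2 * T) ≤ C3 * W * (2 * T ^ 6) * 1 := by rw [mul_one]; gcongr
        _ ≤ C3 * W * (2 * T ^ 6) * x := by gcongr
        _ = _ := by ring
    have g2 : C0 * T ^ 6 * (5 * W * x) = W * T ^ 6 * (5 * C0 * x) := by ring
    have g3 : C0 * T ^ 6 * (W * (5 * x)) = W * T ^ 6 * (5 * C0 * x) := by ring
    have g4 : J + (2 * C3 * x + 5 * C0 * x + 5 * C0 * x) ≤ (1 + 2 * C3 + 10 * C0) * (J + x) := by
      have k1 := mul_nonneg hC3.le hJ0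
      have k2 := mul_nonneg (by linarith : (0 : ℝ) ≤ C0) hJ0
      have k3 : (1 + 2 * C3 + 10 * C0) * (J + x) = J + (2 * C3 * x + 5 * C0 * x + 5 * C0 * x) +
        (x + 2 * (C3 * J) + 10 * (C0 * J)) := by ring
      rw [k3]
      linarith
    calc Real.exp (ρ₀.re * U) / (2 * ‖ρ₀‖) ≤ ‖Sg‖ + C0 * T ^ 6 * (W * (5 * x)) := hmainterm.trans f8
      _ ≤ W * T ^ 6 * (J + (2 * C3 * x + 5 * C0 * x + 5 * C0 * x)) := by rw [g3]; linarith
      _ ≤ _ := by gcongr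
  have f10 : Real.exp (ρ₀.re * U) ≤ (2 * ‖ρ₀‖) * (W * T ^ 6 * ((1 + 2 * C3 + 10 * C0) * (J + x))) := by
    rw [div_le_iff₀ (by positivity)] at f9
    linarith
  have hCT : 1 ≤ C * T := one_le_mul_of_one_le_of_one_le (by linarith) (by linarith)
  have hdC : 3 * T / d ≤ C * T := by
    have : 3 / d ≤ C := by linarith
    calc 3 * T / d = 3 / d * T := by ring
      _ ≤ C * T := by gcongr
  have f11 : (3 * T / d) ^ Z.card ≤ (C * T) ^ ((NZ G θ T).ncard) :=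
    (pow_le_pow_left₀ (by positivity) hdC _).trans (pow_le_pow_right₀ hCT hZcard)
  have hxJ : 0 ≤ J + x := by linarith
  calc Real.exp (ρ₀.re * U) ≤ (2 * ‖ρ₀‖) * (W * T ^ 6 * ((1 + 2 * C3 + 10 * C0) * (J + x))) := f10
    _ = (2 * (‖ρ₀‖ * c0) * (1 + 2 * C3 + 10 * C0)) * T ^ 6 * (3 * T / d) ^ Z.card * (J + x) := by
        rw [hW]; ring
    _ ≤ C * T ^ 6 * (C * T) ^ ((NZ G θ T).ncard) * (J + x) := by
        rw [hnc]
        have : 2 * 1 * (1 + 2 * C3 + 10 * C0) ≤ C := by linarith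
        gcongr

end

end Pool.Agent.N739.LW
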